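import Pool.Agent.Zk1.BIR.Asm

set_option autoImplicit false

/-!
# Removal of the Euler factors at finitely many primes
-/

namespace Pool.Agent.Zk3.GA

open Complex Filter Topology Set NumberField
open Pool.Agent.Zk3.GL (cpow_norm pol_factor lp sums)
open Pool.Agent.Zk1.BIR (IsHR)
open Pool.Agent.N784.HC (IsHecke CTyp)

/-- a bound for the local polynomials -/
lemma local_leR {i D : ℕ} {M : ℝ} {P : ℕ → Polynomial ℂ} {A Q : ℝ} {L : ℂ → ℂ} (h : IsHR i D M P A Q L) {p : ℕ}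
    (hp : p.Prime) {s : ℂ} (hs : (i : ℝ) / 2 ≤ s.re) : ‖(P p).eval ((p : ℂ) ^ (-s))‖ ≤ ((p : ℝ) ^ 2) ^ D := by
  have hp0 : (0 : ℝ) < p := by exact_mod_cast hp.pos
  have hp1 : (1 : ℝ) ≤ p := by exact_mod_cast hp.one_lt.le
  have hp2 : (2 : ℝ) ≤ p := by exact_mod_cast hp.two_le
  obtain ⟨α, h2, h3⟩ := pol_factor (R := (p : ℝ) ^ (((i : ℝ) + 1) / 2)) (by positivity) (h.const p hp) (h.degree p hp)
    (fun z hz => by
      rw [← Real.rpow_neg hp0.le]
      exact h.roots p hp z hz)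
  rw [h3, norm_prod]
  calc ∏ j : Fin D, ‖1 - α j * (p : ℂ) ^ (-s)‖ ≤ ∏ j : Fin D, ((p : ℝ) ^ 2) := by
        refine Finset.prod_le_prod (fun _ _ => norm_nonneg _) fun j _ => ?_
        have e1 : ‖α j * (p : ℂ) ^ (-s)‖ ≤ p := by
          rw [norm_mul, cpow_norm hp.pos]
          calc ‖α j‖ * (p : ℝ) ^ (-s.re) ≤ (p : ℝ) ^ (((i : ℝ) + 1) / 2) * (p : ℝ) ^ (-s.re) :=
                mul_le_mul_of_nonneg_right (h2 j) (by positivity)
            _ = (p : ℝ) ^ (((i : ℝ) + 1) / 2 + -s.re) := (Real.rpow_add hp0 _ _).symm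
            _ ≤ (p : ℝ) ^ (1 : ℝ) := Real.rpow_le_rpow_of_exponent_le hp1 (by linarith)
            _ = p := Real.rpow_one _
        calc ‖1 - α j * (p : ℂ) ^ (-s)‖ ≤ ‖(1 : ℂ)‖ + ‖α j * (p : ℂ) ^ (-s)‖ := norm_sub_le _ _
          _ ≤ (p : ℝ) ^ 2 := by rw [norm_one]; nlinarith
    _ = ((p : ℝ) ^ 2) ^ D := by simp

/-- the removal of the Euler factors at the divisors of `N` -/
theorem removeR {i D : ℕ} {M : ℝ} {P : ℕ → Polynomial ℂ} {A Q : ℝ} {L : ℂ → ℂ} (h : IsHR i D M P A Q L) (hA : 1 ≤ A)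
    (hQ : 1 ≤ Q) {N : ℕ} (hN : N ≠ 0) :
    IsHR i D M (fun p => if p ∣ N then 1 else P p) (A + (2 * D : ℕ)) (N * Q)
      (fun s => L s * ∏ p ∈ N.primeFactors, (P p).eval ((p : ℂ) ^ (-s))) where
  const p hp := by
    split_ifs
    · simp
    · exact h.const p hp
  degree p hp := by
    split_ifs
    · simp
    · exact h.degree p hp
  roots p hp z hz := by
    split_ifs at hz
    · simp at hz
    · exact h.roots p hp z hz
  mean := by
    obtain ⟨g, h1, h2, h3⟩ := h.mean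
    refine ⟨g, h1, fun p hp z hz => ?_, h3⟩
    split_ifs at hz
    · simp at hz
    · exact h2 p hp z hz
  euler s hs := by
    have hne : ∀ p : Nat.Primes, (P p).eval (((p : ℕ) : ℂ) ^ (-s)) ≠ 0 := by
      intro p hp
      have h1 := h.roots p p.2 _ hp
      have hp0 : (0 : ℝ) < (p : ℕ) := by exact_mod_cast p.2.pos
      have hp1 : (1 : ℝ) < (p : ℕ) := by exact_mod_cast p.2.one_lt
      rw [cpow_norm p.2.pos] at h1
      have h2 := (Real.rpow_le_rpow_left_iff hp1).1 h1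
      linarith
    set S : Finset Nat.Primes := N.primeFactors.attach.map
      ⟨fun p => ⟨p.1, Nat.prime_of_mem_primeFactors p.2⟩, fun p q hpq => by
        have := congrArg Subtype.val hpq
        exact Subtype.ext this⟩ with hS
    have hmem : ∀ p : Nat.Primes, p ∈ S ↔ (p : ℕ) ∣ N := by
      intro p
      rw [hS, Finset.mem_map]
      constructor
      · rintro ⟨q, -, rfl⟩
        exact Nat.dvd_of_mem_primeFactors q.2
      · intro hp
        exact ⟨⟨p, Nat.mem_primeFactors.2 ⟨p.2, hp, hN⟩⟩, Finset.mem_attach _ _, rfl⟩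
    have h1 : HasProd (fun p : Nat.Primes => if (p : ℕ) ∣ N then (P p).eval (((p : ℕ) : ℂ) ^ (-s)) else 1)
        (∏ p ∈ S, if (p : ℕ) ∣ N then (P p).eval (((p : ℕ) : ℂ) ^ (-s)) else 1) :=
      hasProd_prod_of_ne_finset_one fun p hp => by
        rw [hmem] at hp
        rw [if_neg hp]
    have h2 : (∏ p ∈ S, if (p : ℕ) ∣ N then (P p).eval (((p : ℕ) : ℂ) ^ (-s)) else 1) =
        ∏ p ∈ N.primeFactors, (P p).eval ((p : ℂ) ^ (-s)) := by
      rw [hS, Finset.prod_map, ← Finset.prod_attach N.primeFactors]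
      refine Finset.prod_congr rfl fun p _ => ?_
      exact if_pos (Nat.dvd_of_mem_primeFactors p.2)
    rw [h2] at h1
    refine ((h.euler s hs).mul h1).congr_fun fun p => ?_
    split_ifs
    · rw [Polynomial.eval_one, inv_one, inv_mul_cancel₀ (hne p)]
    · rw [mul_one]
  analytic s hs := by
    refine (h.analytic s hs).mul ?_
    refine Finset.analyticAt_fun_prod _ fun p hp => ?_
    have hp0 : (p : ℂ) ≠ 0 := by exact_mod_cast (Nat.prime_of_mem_primeFactors hp).ne_zero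
    have h1 : AnalyticAt ℂ (fun s : ℂ => (p : ℂ) ^ (-s)) s := by
      have e : (fun s : ℂ => (p : ℂ) ^ (-s)) = fun s : ℂ => Complex.exp (Complex.log p * (-s)) := by
        funext s
        rw [Complex.cpow_def_of_ne_zero hp0]
      rw [e]
      fun_prop
    have h2 : (fun s : ℂ => (P p).eval ((p : ℂ) ^ (-s))) = fun s => Polynomial.aeval ((p : ℂ) ^ (-s)) (P p) := by
      funext s
      simp
    rw [h2]
    exact h1.aeval_polynomial (P p)
  growth s h1 h2 h3 := by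
    have hN1 : (1 : ℝ) ≤ N := by exact_mod_cast Nat.one_le_iff_ne_zero.2 hN
    have e1 := h.growth s h1 h2 h3
    have e2 : ‖∏ p ∈ N.primeFactors, (P p).eval ((p : ℂ) ^ (-s))‖ ≤ (N : ℝ) ^ (2 * D) := by
      rw [norm_prod]
      calc ∏ p ∈ N.primeFactors, ‖(P p).eval ((p : ℂ) ^ (-s))‖ ≤ ∏ p ∈ N.primeFactors, (((p : ℝ)) ^ 2) ^ D := by
            refine Finset.prod_le_prod (fun _ _ => norm_nonneg _) fun p hp => ?_
            exact local_leR h (Nat.prime_of_mem_primeFactors hp) (by linarith)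
        _ = (((∏ p ∈ N.primeFactors, p : ℕ) : ℝ)) ^ (2 * D) := by
            push_cast
            rw [pow_mul, ← Finset.prod_pow, ← Finset.prod_pow]
        _ ≤ (N : ℝ) ^ (2 * D) := by
            refine pow_le_pow_left₀ (by positivity) ?_ _
            exact_mod_cast Nat.le_of_dvd (Nat.pos_of_ne_zero hN) (Nat.prod_primeFactors_dvd N)
    rw [norm_mul]
    have e3 : 1 ≤ Q * s.im := by nlinarith
    have e4 : 1 ≤ N * Q * s.im := by
      calc (1 : ℝ) ≤ Q * s.im := e3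
        _ ≤ Q * s.im * N := le_mul_of_one_le_right (by linarith) hN1
        _ = _ := by ring
    have e5 : Q * s.im ≤ N * Q * s.im := by
      calc Q * s.im ≤ Q * s.im * N := le_mul_of_one_le_right (by linarith) hN1
        _ = _ := by ring
    have e6 : (N : ℝ) ≤ N * Q * s.im := by
      calc (N : ℝ) ≤ (Q * s.im) * N := le_mul_of_one_le_left (by linarith) e3
        _ = _ := by ring
    have hD : (0 : ℝ) ≤ ((2 * D : ℕ) : ℝ) := Nat.cast_nonneg _
    calc ‖L s‖ * ‖∏ p ∈ N.primeFactors, (P p).eval ((p : ℂ) ^ (-s))‖ ≤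
        (A * (Q * s.im) ^ A) * (N : ℝ) ^ (2 * D) := mul_le_mul e1 e2 (norm_nonneg _) (by positivity)
      _ ≤ (A * (N * Q * s.im) ^ A) * (N * Q * s.im) ^ ((2 * D : ℕ) : ℝ) := by
          rw [Real.rpow_natCast]
          refine mul_le_mul ?_ (pow_le_pow_left₀ (by linarith) e6 _) (by positivity) (by positivity)
          exact mul_le_mul_of_nonneg_left (Real.rpow_le_rpow (by linarith) e5 (by linarith)) (by linarith)
      _ = A * (N * Q * s.im) ^ (A + (2 * D : ℕ)) := by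
          rw [mul_assoc, ← Real.rpow_add (by linarith)]
      _ ≤ (A + (2 * D : ℕ)) * (N * Q * s.im) ^ (A + (2 * D : ℕ)) :=
          mul_le_mul_of_nonneg_right (by linarith) (by positivity)

lemma removeR_diff {P : ℕ → Polynomial ℂ} {L : ℂ → ℂ} (hL : Differentiable ℂ L) (N : ℕ) :
    Differentiable ℂ (fun s => L s * ∏ p ∈ N.primeFactors, (P p).eval ((p : ℂ) ^ (-s))) := by
  refine hL.mul (Differentiable.fun_finsetProd fun p hp => ?_)
  have hp0 : (p : ℂ) ≠ 0 := by exact_mod_cast (Nat.prime_of_mem_primeFactors hp).ne_zero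
  have h1 : Differentiable ℂ (fun s : ℂ => (p : ℂ) ^ (-s)) := by
    intro s
    exact (differentiableAt_id.neg).const_cpow (Or.inl hp0)
  have h2 : (fun s : ℂ => (P p).eval ((p : ℂ) ^ (-s))) = fun s => Polynomial.aeval ((p : ℂ) ^ (-s)) (P p) := by
    funext s
    simp
  rw [h2]
  exact ((P p).differentiable_aeval).comp h1

/-- the polynomials at the prime numbers determine the property -/
lemma congrR {i D : ℕ} {M : ℝ} {P P' : ℕ → Polynomial ℂ} {A Q : ℝ} {L : ℂ → ℂ} (h : IsHR i D M P A Q L)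
    (hP : ∀ p : ℕ, p.Prime → P' p = P p) : IsHR i D M P' A Q L where
  const p hp := by rw [hP p hp]; exact h.const p hp
  degree p hp := by rw [hP p hp]; exact h.degree p hp
  roots p hp := by rw [hP p hp]; exact h.roots p hp
  mean := by
    obtain ⟨g, h1, h2, h3⟩ := h.mean
    exact ⟨g, h1, fun p hp z hz => h2 p hp z (by rw [← hP p hp]; exact hz), h3⟩
  euler s hs := (h.euler s hs).congr_fun fun p => by rw [hP p p.2]
  analytic := h.analytic
  growth := h.growth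

/-- products of newforms and Hecke characters, without the Euler factors at the divisors of `N` -/
theorem asmR {i n : ℕ} {cop : Fin n → ℕ → Prop} {Pn : ∀ _ : Fin n, ∀ {q : ℕ}, DirichletCharacter ℂ q → ℕ → Polynomial ℂ}
    (h : ∀ j, ∃ M A : ℝ, 1 ≤ M ∧ 1 ≤ A ∧ ∀ (q : ℕ) (χ : DirichletCharacter ℂ q), 1 ≤ q → cop j q → χ.IsPrimitive →
      ∃ L : ℂ → ℂ, Differentiable ℂ L ∧ IsHR i 2 M (Pn j χ) A q L)
    (m : ℕ) (K : Fin m → Type) [∀ j, Field (K j)] [∀ j, NumberField (K j)]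
    (ν : ∀ j, (K j →+* ℂ) → ℕ) (hν : ∀ j, CTyp (ν j)) (t : ℕ) :
    ∃ M A : ℝ, 1 ≤ M ∧ 1 ≤ A ∧
      ∀ (N : ℕ) (q : Fin n → ℕ) (χ : ∀ j, DirichletCharacter ℂ (q j)) (𝔣 : ∀ j, Ideal (𝓞 (K j)))
        (ψ : ∀ j, Ideal (𝓞 (K j)) →*₀ ℂ), N ≠ 0 →
      (∀ j, 1 ≤ q j ∧ cop j (q j) ∧ (χ j).IsPrimitive) →
      (∀ j, 𝔣 j ≠ ⊤ ∧ IsHecke (K j) (𝔣 j) (ν j) (ψ j)) →
      1 ≤ (N : ℝ) * (∏ j, (q j : ℝ)) * ∏ j, (Ideal.absNorm (𝔣 j) : ℝ) ∧ ∃ L : ℂ → ℂ, (t = 0 → Differentiable ℂ L) ∧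
        IsHR i (2 * n + (t + ∑ j, Module.finrank ℚ (K j))) M
          (fun p => if p ∣ N then 1 else (∏ j, Pn j (χ j) p) *
            ((1 - Polynomial.C ((p : ℂ) ^ ((i : ℂ) / 2)) * Polynomial.X) ^ t * ∏ j, lp i (ψ j) p))
          A (N * (∏ j, (q j : ℝ)) * ∏ j, (Ideal.absNorm (𝔣 j) : ℝ)) L := by
  obtain ⟨M, A, hM, hA, h1⟩ := Pool.Agent.Zk1.BIR.asm h m K ν hν t
  refine ⟨M, A + (2 * (2 * n + (t + ∑ j, Module.finrank ℚ (K j))) : ℕ), hM, ?_, fun N q χ 𝔣 ψ hN hχ hψ => ?_⟩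
  · have : (0 : ℝ) ≤ ((2 * (2 * n + (t + ∑ j, Module.finrank ℚ (K j))) : ℕ) : ℝ) := Nat.cast_nonneg _
    linarith
  obtain ⟨h2, L, h3, h4⟩ := h1 1 q χ 𝔣 ψ one_ne_zero hχ hψ
  have e0 : ((1 : ℕ) : ℝ) * (∏ j, (q j : ℝ)) * ∏ j, (Ideal.absNorm (𝔣 j) : ℝ) =
      (∏ j, (q j : ℝ)) * ∏ j, (Ideal.absNorm (𝔣 j) : ℝ) := by push_cast; ring
  rw [e0] at h2 h4
  have hN1 : (1 : ℝ) ≤ N := by exact_mod_cast Nat.one_le_iff_ne_zero.2 hN
  have e1 : (N : ℝ) * (∏ j, (q j : ℝ)) * ∏ j, (Ideal.absNorm (𝔣 j) : ℝ) =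
      N * ((∏ j, (q j : ℝ)) * ∏ j, (Ideal.absNorm (𝔣 j) : ℝ)) := by ring
  rw [e1]
  refine ⟨one_le_mul_of_one_le_of_one_le hN1 h2, _, fun ht => ?_, congrR (removeR h4 hA h2 hN) fun p hp => ?_⟩
  · exact removeR_diff (h3 ht) N
  · have : ¬ p ∣ 1 := hp.one_lt.ne' ∘ Nat.dvd_one.1
    rw [if_neg this]

end Pool.Agent.Zk3.GA
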