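import Pool.Agent.Zk3.GL.Lfun

set_option autoImplicit false

/-!
# Coefficients bounded on average
-/

namespace Pool.Agent.Zk3.GA

open Complex Filter Topology Set
open Pool.Agent.Zk3.GL (gl)

/-- The coefficients `a(n)` of `-F'/F` are bounded on average; `gl a n = a n / log n`. -/
structure Co (E : ℝ) (a : ℕ → ℂ) : Prop where
  small : ∀ n : ℕ, n ≤ 1 → a n = 0
  lin : ∀ n : ℕ, ‖a n‖ ≤ E * n
  sum2 : Summable (fun n : ℕ => ‖a n‖ * (n : ℝ) ^ (-2 : ℝ))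
  le2 : ∑' n : ℕ, ‖a n‖ * (n : ℝ) ^ (-2 : ℝ) ≤ E
  absc : LSeries.abscissaOfAbsConv (gl a) ≤ 1
  primes : ∀ N : ℕ, 1 ≤ N → ∑ p ∈ (Finset.Icc 1 N).filter Nat.Prime, ‖gl a p‖ ^ 2 * Real.log p / p ≤
    E ^ 2 * (Real.log N + 6) ^ 2
  powers : ∀ N : ℕ, 1 ≤ N → ∑ n ∈ (Finset.Ioc 0 N).filter (fun n : ℕ => ¬ n.Prime), ‖a n‖ / Real.sqrt n ≤
    E * (2 + Real.log N) ^ 2

/-- An L-function of any degree in the upper half plane, with polynomial growth, and coefficients of `-F'/F` bounded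
on average. -/
structure IsA (E A Q : ℝ) (F : ℂ → ℂ) (a : ℕ → ℂ) : Prop where
  an : ∀ s : ℂ, 0 < s.im → AnalyticAt ℂ F s
  growth : ∀ s : ℂ, 1 / 4 ≤ s.re → s.re ≤ 4 → 1 ≤ s.im → ‖F s‖ ≤ A * (Q * s.im) ^ A
  lower : ∀ t : ℝ, 1 ≤ t → A⁻¹ ≤ ‖F (⟨2, t⟩ : ℂ)‖
  nz : ∀ s : ℂ, 1 < s.re → 1 ≤ s.im → F s ≠ 0
  coef : Co E a
  ld : ∀ s : ℂ, 1 < s.re → 1 ≤ s.im → deriv F s / F s = - ∑' n : ℕ, a n * (n : ℂ) ^ (-s)

end Pool.Agent.Zk3.GA
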