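import Pool.Agent.Zk3.GA.Win

set_option autoImplicit false

/-!
# The density theorem for scattered zeros
-/

namespace Pool.Agent.Zk3.GA

open Complex Filter Topology Set Metric MeasureTheory
open ArithmeticFunction (vonMangoldt)
open Pool.Agent.Zk3.GL (FewF)

theorem gen {ε : ℝ} (hε : 0 < ε) (hε1 : ε ≤ 1) : ∃ B cf P : ℝ, 1 ≤ B ∧ 0 < cf ∧ 0 < P ∧
    ∀ (D A K : ℝ), 1 ≤ D → 1 ≤ A → ∃ C : ℝ, 0 < C ∧ ∀ (Q : ℝ) (F : ℂ → ℂ) (a : ℕ → ℂ), 1 ≤ Q →
    IsB D A Q F a → ∀ (T H δ : ℝ), 3 ≤ T → 1 ≤ H → H ≤ T → 0 < δ → δ ≤ 1 / 2 →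
    ∀ S : Finset ℂ, (∀ s ∈ S, F s = 0 ∧ 1 / 2 + δ ≤ s.re ∧ T < s.im ∧ s.im ≤ T + H ∧
      ∀ r : ℝ, δ ≤ r → r ≤ 1 / 2 → FewF F ε B δ r s.im (K + cf * (r * Real.log H))) →
    ∑ s ∈ S, (analyticOrderNatAt F s : ℝ) ≤
      C * H ^ (1 - (2 - ε) * δ) * (Real.log (Q * T)) ^ P := by
  obtain ⟨B, cf, C0, hB, hcf, hC0, hwin⟩ := win hε hε1
  refine ⟨B, cf, 2 * C0 + 5, hB, hcf, by linarith, ?_⟩
  intro D A K hD hA
  obtain ⟨C, V0, hC, hV0, h⟩ := hwin D A K hD hA
  refine ⟨C * 16 + 600 * A * Real.exp (V0 / 2) + 600 * A * 2 ^ (2 * C0), by positivity, ?_⟩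
  intro Q F a hQ hF T H δ hT hH hHT hδ hδ2 S hS
  have hF' : IsB D A Q F a := hF
  have hA0 : 0 < A := by linarith
  have hTp : 0 < T := by linarith
  have hHp : 0 < H := by linarith
  have hQT : 3 ≤ Q * T := by nlinarith
  obtain ⟨l, hl⟩ : ∃ l : ℝ, l = Real.log (Q * T) := ⟨_, rfl⟩
  have hl1 : 1 ≤ l := by
    rw [hl, Real.le_log_iff_exp_le (by linarith)]
    linarith [Real.exp_one_lt_d9]
  have hl0 : 0 < l := by linarith
  have hcr := crude hF hA hQ hT hH hHT S (fun s hs => by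
    obtain ⟨h1, h2, h3, h4, -⟩ := hS s hs
    exact ⟨h1, by linarith, h3, h4⟩)
  rw [← hl] at hcr ⊢
  have hα : 0 ≤ 1 - (2 - ε) * δ := by
    have := mul_le_mul_of_nonneg_left hδ2 (show 0 ≤ 2 - ε by linarith)
    linarith
  obtain ⟨X, hX⟩ : ∃ X : ℝ, X = H ^ (1 - (2 - ε) * δ) := ⟨_, rfl⟩
  have hX1 : 1 ≤ X := by rw [hX]; exact Real.one_le_rpow hH hα
  have hX0 : 0 < X := by linarith
  rw [← hX]
  have hlP : l ≤ l ^ (2 * C0 + 5) := by
    calc l = l ^ (1 : ℝ) := (Real.rpow_one l).symm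
      _ ≤ _ := Real.rpow_le_rpow_of_exponent_le hl1 (by linarith)
  have hlP0 : 0 < l ^ (2 * C0 + 5) := by positivity
  have e2 : (0 : ℝ) < 2 ^ (2 * C0) := by positivity
  have hXl : 0 < X * l ^ (2 * C0 + 5) := by positivity
  have hLn : 0 ≤ Real.log H := Real.log_nonneg hH
  rcases lt_or_ge (2 * l) V0 with hsm | hbig
  · -- bounded `Q T`
    have h1 : H ≤ Real.exp (V0 / 2) := by
      have h2 : H ≤ Q * T := hHT.trans (le_mul_of_one_le_left hTp.le hQ)
      refine h2.trans ?_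
      rw [← Real.exp_log (show 0 < Q * T by linarith), ← hl]
      exact Real.exp_le_exp.mpr (by linarith)
    calc ∑ s ∈ S, (analyticOrderNatAt F s : ℝ) ≤ 600 * A * H * l := hcr
      _ ≤ 600 * A * Real.exp (V0 / 2) * l ^ (2 * C0 + 5) :=
          mul_le_mul (mul_le_mul_of_nonneg_left h1 (by positivity)) hlP hl0.le (by positivity)
      _ ≤ 600 * A * Real.exp (V0 / 2) * (X * l ^ (2 * C0 + 5)) := by
          refine mul_le_mul_of_nonneg_left ?_ (by positivity)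
          exact le_mul_of_one_le_left hlP0.le hX1
      _ ≤ (C * 16 + 600 * A * Real.exp (V0 / 2) + 600 * A * 2 ^ (2 * C0)) * (X * l ^ (2 * C0 + 5)) := by
          refine mul_le_mul_of_nonneg_right ?_ hXl.le
          have : 0 ≤ 600 * A * 2 ^ (2 * C0) := by positivity
          linarith
      _ = _ := by ring
  obtain ⟨V, hV⟩ : ∃ V : ℝ, V = 2 * l := ⟨_, rfl⟩
  rw [← hV] at hbig
  have hVp : 0 < V := by linarith
  rcases lt_or_ge (δ * Real.log H) (C0 * Real.log V) with hd | hd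
  · -- small `δ`
    have h1 : H ≤ X * V ^ (2 * C0) := by
      rw [hX, Real.rpow_def_of_pos hHp, Real.rpow_def_of_pos hVp, ← Real.exp_add]
      nth_rewrite 1 [← Real.exp_log hHp]
      refine Real.exp_le_exp.mpr ?_
      have : 0 ≤ δ * Real.log H := by positivity
      nlinarith
    have h2 : V ^ (2 * C0) = 2 ^ (2 * C0) * l ^ (2 * C0) := by
      rw [hV, Real.mul_rpow (by norm_num) hl0.le]
    have h3 : l ^ (2 * C0) * l ≤ l ^ (2 * C0 + 5) := by
      calc l ^ (2 * C0) * l = l ^ (2 * C0 + 1) := by rw [Real.rpow_add hl0, Real.rpow_one]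
        _ ≤ _ := Real.rpow_le_rpow_of_exponent_le hl1 (by linarith)
    calc ∑ s ∈ S, (analyticOrderNatAt F s : ℝ) ≤ 600 * A * H * l := hcr
      _ ≤ 600 * A * (X * V ^ (2 * C0)) * l :=
          mul_le_mul_of_nonneg_right (mul_le_mul_of_nonneg_left h1 (by positivity)) hl0.le
      _ = 600 * A * 2 ^ (2 * C0) * (X * (l ^ (2 * C0) * l)) := by rw [h2]; ring
      _ ≤ 600 * A * 2 ^ (2 * C0) * (X * l ^ (2 * C0 + 5)) :=
          mul_le_mul_of_nonneg_left (mul_le_mul_of_nonneg_left h3 hX0.le) (by positivity)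
      _ ≤ (C * 16 + 600 * A * Real.exp (V0 / 2) + 600 * A * 2 ^ (2 * C0)) * (X * l ^ (2 * C0 + 5)) := by
          refine mul_le_mul_of_nonneg_right ?_ hXl.le
          have : 0 ≤ 600 * A * Real.exp (V0 / 2) := by positivity
          linarith
      _ = _ := by ring
  · have h1 := h Q F a hQ hF' T H δ V (by rw [hV, hl]) hbig hH hHT hd hδ hδ2 S hS
    have h2 : H * Real.exp (-((2 - ε) * δ * Real.log H)) = X := by
      rw [hX, Real.rpow_def_of_pos hHp]
      nth_rewrite 1 [← Real.exp_log hHp]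
      rw [← Real.exp_add]
      congr 1
      ring
    have h3 : V ^ 4 ≤ 16 * l ^ (2 * C0 + 5) := by
      have h4 : l ^ 4 ≤ l ^ (2 * C0 + 5) := by
        rw [← Real.rpow_natCast]
        exact Real.rpow_le_rpow_of_exponent_le hl1 (by push_cast; linarith)
      rw [hV]
      have e1 : (2 * l) ^ 4 = 16 * l ^ 4 := by ring
      rw [e1]
      linarith
    calc ∑ s ∈ S, (analyticOrderNatAt F s : ℝ) ≤
        C * H * Real.exp (-((2 - ε) * δ * Real.log H)) * V ^ 4 := h1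
      _ = C * X * V ^ 4 := by rw [mul_assoc C, h2]
      _ ≤ C * X * (16 * l ^ (2 * C0 + 5)) := mul_le_mul_of_nonneg_left h3 (by positivity)
      _ = C * 16 * (X * l ^ (2 * C0 + 5)) := by ring
      _ ≤ (C * 16 + 600 * A * Real.exp (V0 / 2) + 600 * A * 2 ^ (2 * C0)) * (X * l ^ (2 * C0 + 5)) := by
          refine mul_le_mul_of_nonneg_right ?_ hXl.le
          have : 0 ≤ 600 * A * Real.exp (V0 / 2) := by positivity
          have : 0 ≤ 600 * A * 2 ^ (2 * C0) := by positivity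
          linarith
      _ = _ := by ring

end Pool.Agent.Zk3.GA
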