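import Pool.Agent.Zk3.GA.Lfun

set_option autoImplicit false

/-!
# Growth and the logarithmic derivative
-/

namespace Pool.Agent.Zk3.GA

open Complex Filter Topology Set Metric
open ArithmeticFunction (vonMangoldt)

variable {D A Q : ℝ} {F : ℂ → ℂ} {a : ℕ → ℂ}

/-- data in the ball of radius `7/4` about `2 + i y` -/
lemma data (hF : IsB D A Q F a) (hA : 1 ≤ A) (hQ : 1 ≤ Q) {y : ℝ} (hy : 3 ≤ y) :
    ∃ M : ℝ, 1 ≤ M ∧ AnalyticOnNhd ℂ F (closedBall (⟨2, y⟩ : ℂ) (7 / 4)) ∧ F ⟨2, y⟩ ≠ 0 ∧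
      (∀ z ∈ closedBall (⟨2, y⟩ : ℂ) (7 / 4), ‖F z‖ ≤ M) ∧ ‖F ⟨2, y⟩‖ ≤ M ∧
      0 ≤ Real.log (M / ‖F ⟨2, y⟩‖) ∧ Real.log (M / ‖F ⟨2, y⟩‖) ≤ 4 * A * Real.log (Q * y) ∧
      1 ≤ Real.log (Q * y) := by
  have hball : ∀ z ∈ closedBall (⟨2, y⟩ : ℂ) (7 / 4), (1 / 4 : ℝ) ≤ z.re ∧ z.re ≤ 4 ∧ 1 ≤ z.im ∧ z.im ≤ y + 2 := by
    intro z hz
    rw [mem_closedBall, dist_eq_norm] at hz
    have h1 := (Complex.abs_re_le_norm _).trans hz
    have h2 := (Complex.abs_im_le_norm _).trans hz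
    rw [Complex.sub_re, abs_le] at h1
    rw [Complex.sub_im, abs_le] at h2
    simp only at h1 h2
    refine ⟨by linarith, by linarith, by linarith, by linarith⟩
  have hA0 : 0 < A := by linarith
  have hQy : 3 ≤ Q * y := by nlinarith
  have hQ2 : 1 ≤ Q * (y + 2) := by nlinarith
  have hpow : 1 ≤ (Q * (y + 2)) ^ A := Real.one_le_rpow hQ2 hA0.le
  have hlow := hF.lower y (by linarith)
  have hc0 : 0 < ‖F ⟨2, y⟩‖ := lt_of_lt_of_le (by positivity) hlow
  have hM1 : 1 ≤ A * (Q * (y + 2)) ^ A := by nlinarith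
  have hb : ∀ z ∈ closedBall (⟨2, y⟩ : ℂ) (7 / 4), ‖F z‖ ≤ A * (Q * (y + 2)) ^ A := by
    intro z hz
    obtain ⟨h1, h2, h3, h4⟩ := hball z hz
    refine (hF.growth z h1 h2 h3).trans (mul_le_mul_of_nonneg_left ?_ hA0.le)
    exact Real.rpow_le_rpow (by positivity) (mul_le_mul_of_nonneg_left h4 (by linarith)) hA0.le
  have hcm : (⟨2, y⟩ : ℂ) ∈ closedBall (⟨2, y⟩ : ℂ) (7 / 4) := mem_closedBall_self (by norm_num)
  have hlog1 : 1 ≤ Real.log (Q * y) := by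
    rw [Real.le_log_iff_exp_le (by linarith)]
    linarith [Real.exp_one_lt_d9]
  refine ⟨A * (Q * (y + 2)) ^ A, hM1, fun z hz => hF.an z (by linarith [(hball z hz).2.2.1]),
    norm_pos_iff.mp hc0, hb, hb _ hcm, Real.log_nonneg (by rw [one_le_div hc0]; exact hb _ hcm), ?_, hlog1⟩
  have h1 : A * (Q * (y + 2)) ^ A / ‖F ⟨2, y⟩‖ ≤ A * (Q * (y + 2)) ^ A * A := by
    rw [div_le_iff₀ hc0]
    have h2 : 1 ≤ A * ‖F ⟨2, y⟩‖ := by
      have := mul_le_mul_of_nonneg_left hlow hA0.le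
      rwa [mul_inv_cancel₀ hA0.ne'] at this
    calc A * (Q * (y + 2)) ^ A = A * (Q * (y + 2)) ^ A * 1 := (mul_one _).symm
      _ ≤ A * (Q * (y + 2)) ^ A * (A * ‖F ⟨2, y⟩‖) := mul_le_mul_of_nonneg_left h2 (by positivity)
      _ = _ := by ring
  have h2 : Real.log (Q * (y + 2)) ≤ 2 * Real.log (Q * y) := by
    have : Real.log (Q * (y + 2)) ≤ Real.log ((Q * y) ^ 2) := by
      refine Real.log_le_log (by positivity) ?_
      have e1 : (Q * y) ^ 2 = (Q * y) * (Q * y) := by ring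
      have e2 : Q * (y + 2) ≤ Q * (y * 3) := mul_le_mul_of_nonneg_left (by linarith) (by linarith)
      have e3 : (Q * y) * 3 ≤ (Q * y) * (Q * y) := mul_le_mul_of_nonneg_left hQy (by linarith)
      rw [e1]
      linarith
    rw [Real.log_pow] at this
    exact_mod_cast this
  have h3 : Real.log A ≤ A := (Real.log_le_sub_one_of_pos hA0).trans (by linarith)
  have h4 := Real.log_le_log (by positivity) h1
  rw [Real.log_mul (by positivity) hA0.ne', Real.log_mul hA0.ne' (by positivity),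
    Real.log_rpow (by linarith)] at h4
  have h5 : A * Real.log (Q * (y + 2)) ≤ A * (2 * Real.log (Q * y)) := mul_le_mul_of_nonneg_left h2 hA0.le
  have h6 : A * 1 ≤ A * Real.log (Q * y) := mul_le_mul_of_nonneg_left hlog1 hA0.le
  linarith

/-- the number of zeros in a window -/
lemma cnt (hF : IsB D A Q F a) (hA : 1 ≤ A) (hQ : 1 ≤ Q) {y : ℝ} (hy : 3 ≤ y) (S : Finset ℂ)
    (hS : ∀ z ∈ S, 1 / 2 ≤ z.re ∧ z.re ≤ 1 ∧ |z.im - y| ≤ 1 / 2) :
    ∑ z ∈ S, (analyticOrderNatAt F z : ℝ) ≤ 48 * A * Real.log (Q * y) := by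
  obtain ⟨M, hM, han, hc, hb, hMc, hl0, hl, hl1⟩ := data hF hA hQ hy
  have h1 := H370.Loc.jensen_mult (r := 8 / 5) (R := 7 / 4) (by norm_num) (by norm_num) hM han hc hb S
    (fun z hz => by
      obtain ⟨h1, h2, h3⟩ := hS z hz
      rw [mem_closedBall, dist_eq_norm, Complex.norm_def, Real.sqrt_le_left (by norm_num), Complex.normSq_apply,
        Complex.sub_re, Complex.sub_im]
      rw [abs_le] at h3
      simp only
      nlinarith [h3.1, h3.2])
  have h2 : 1 / 12 ≤ Real.log (7 / 4 / (8 / 5)) := by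
    have := Real.one_sub_inv_le_log_of_pos (x := (7 / 4 / (8 / 5) : ℝ)) (by norm_num)
    norm_num at this ⊢
    linarith
  refine h1.trans ?_
  rw [div_le_iff₀ (by linarith)]
  have h3 : 0 ≤ 48 * A * Real.log (Q * y) := by positivity
  calc Real.log (M / ‖F ⟨2, y⟩‖) ≤ 4 * A * Real.log (Q * y) := hl
    _ = 48 * A * Real.log (Q * y) * (1 / 12) := by ring
    _ ≤ _ := mul_le_mul_of_nonneg_left h2 h3

/-- the logarithmic derivative at distance `x` from the line -/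
lemma ldb (hF : IsB D A Q F a) (hA : 1 ≤ A) (hQ : 1 ≤ Q) {y x d : ℝ} (hy : 3 ≤ y) (hx : 0 < x) (hx1 : x ≤ 3 / 2)
    (hd : 0 < d) (hd1 : d ≤ 1) (hz : ∀ w : ℂ, 1 / 2 ≤ w.re → F w = 0 → d ≤ ‖(⟨1 / 2 + x, y⟩ : ℂ) - w‖) :
    F ⟨1 / 2 + x, y⟩ ≠ 0 ∧ ‖deriv F ⟨1 / 2 + x, y⟩ / F ⟨1 / 2 + x, y⟩‖ ≤
      16000 * A * Real.log (Q * y) / (x ^ 4 * d) := by
  obtain ⟨M, hM, han, hc, hb, hMc, hl0, hl, hl1⟩ := data hF hA hQ hy
  have hsub : closedBall (⟨2, y⟩ : ℂ) (3 / 2) ⊆ closedBall (⟨2, y⟩ : ℂ) (7 / 4) :=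
    closedBall_subset_closedBall (by norm_num)
  have hmem : (⟨1 / 2 + x, y⟩ : ℂ) ∈ closedBall (⟨2, y⟩ : ℂ) (3 / 2 - 3 * x / 4) := by
    rw [mem_closedBall, dist_eq_norm]
    have e1 : (⟨1 / 2 + x, y⟩ : ℂ) - ⟨2, y⟩ = ((x - 3 / 2 : ℝ) : ℂ) := by
      apply Complex.ext <;> simp
      norm_num
      ring
    rw [e1, Complex.norm_real, Real.norm_eq_abs, abs_of_nonpos (by linarith)]
    linarith
  have h1 := H370.Loc.landau (c := ⟨2, y⟩) (r2 := 3 / 2 - 3 * x / 4) (r1 := 3 / 2 - x / 2) (r := 3 / 2 - x / 4)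
    (R := 3 / 2) (by linarith) (by linarith) (by linarith) (by linarith) (by linarith) hM hMc (han.mono hsub) hc
    (fun z hz => hb z (hsub hz)) _ hmem d hd (fun w hw h0 => by
      refine hz w ?_ h0
      rw [mem_closedBall, dist_eq_norm] at hw
      have h2 := (Complex.abs_re_le_norm _).trans hw
      rw [Complex.sub_re, abs_le] at h2
      simp only at h2
      linarith)
  refine ⟨h1.1, h1.2.trans ?_⟩
  obtain ⟨B, hB⟩ : ∃ B : ℝ, B = Real.log (M / ‖F ⟨2, y⟩‖) := ⟨_, rfl⟩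
  obtain ⟨B', hB'⟩ : ∃ B' : ℝ, B' = 4 * A * Real.log (Q * y) := ⟨_, rfl⟩
  have hA0 : 0 < A := by linarith
  rw [← hB] at hl0 hl ⊢
  rw [← hB'] at hl
  have hB1 : 1 ≤ B' := by
    rw [hB']
    nlinarith
  have hx4 : 0 < x ^ 4 := by positivity
  have hR : x / 6 ≤ Real.log (3 / 2 / (3 / 2 - x / 4)) := by
    have := Real.one_sub_inv_le_log_of_pos (x := (3 / 2 / (3 / 2 - x / 4) : ℝ)) (by
      have : 0 < 3 / 2 - x / 4 := by linarith
      positivity)
    rw [inv_div] at this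
    refine le_trans (le_of_eq ?_) this
    ring
  have hR0 : 0 < Real.log (3 / 2 / (3 / 2 - x / 4)) := by linarith
  have h2 : B / Real.log (3 / 2 / (3 / 2 - x / 4)) ≤ 6 * B' / x := by
    rw [div_le_div_iff₀ hR0 hx]
    calc B * x ≤ B' * x := mul_le_mul_of_nonneg_right hl hx.le
      _ = 6 * B' * (x / 6) := by ring
      _ ≤ _ := mul_le_mul_of_nonneg_left hR (by linarith)
  have h3 : Real.log ((3 / 2 - x / 4) / (3 / 2 - (3 / 2 - x / 4))) ≤ 6 / x := by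
    have h4 : 0 < (3 / 2 - x / 4) / (3 / 2 - (3 / 2 - x / 4)) := by
      have : 0 < 3 / 2 - x / 4 := by linarith
      have : 0 < 3 / 2 - (3 / 2 - x / 4) := by linarith
      positivity
    have h5 := Real.log_le_sub_one_of_pos h4
    refine h5.trans ?_
    have e1 : (3 / 2 - x / 4) / (3 / 2 - (3 / 2 - x / 4)) = 6 / x - 1 := by
      field_simp
      ring
    rw [e1]
    linarith
  have h30 : 0 ≤ Real.log ((3 / 2 - x / 4) / (3 / 2 - (3 / 2 - x / 4))) := by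
    refine Real.log_nonneg ?_
    rw [one_le_div (by linarith)]
    linarith
  have hBr0 : 0 ≤ B / Real.log (3 / 2 / (3 / 2 - x / 4)) := div_nonneg hl0 hR0.le
  have h6 : B / Real.log (3 / 2 / (3 / 2 - x / 4)) *
      Real.log ((3 / 2 - x / 4) / (3 / 2 - (3 / 2 - x / 4))) ≤ 6 * B' / x * (6 / x) :=
    mul_le_mul h2 h3 h30 (by positivity)
  have hx2 : x ^ 2 ≤ 9 / 4 := by nlinarith
  have hx3 : x ^ 3 ≤ 27 / 8 := by nlinarith [mul_le_mul hx2 hx1 hx.le (by norm_num : (0 : ℝ) ≤ 9 / 4)]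
  have h7 : 2 * (B + B / Real.log (3 / 2 / (3 / 2 - x / 4)) *
      Real.log ((3 / 2 - x / 4) / (3 / 2 - (3 / 2 - x / 4))) + 1) * (3 / 2 - x / 2) ≤ 130 * B' / x ^ 2 := by
    have h8 : B + B / Real.log (3 / 2 / (3 / 2 - x / 4)) *
      Real.log ((3 / 2 - x / 4) / (3 / 2 - (3 / 2 - x / 4))) + 1 ≤ 43 * B' / x ^ 2 := by
      have e1 : 6 * B' / x * (6 / x) = 36 * B' / x ^ 2 := by field_simp; ring
      rw [e1] at h6
      have e2 : B + 1 ≤ 7 * B' / x ^ 2 := by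
        rw [le_div_iff₀ (by positivity)]
        have : (B + 1) * x ^ 2 ≤ (2 * B') * (9 / 4) := mul_le_mul (by linarith) hx2 (by positivity) (by linarith)
        linarith
      have e3 : 43 * B' / x ^ 2 = 36 * B' / x ^ 2 + 7 * B' / x ^ 2 := by ring
      linarith
    have h9 : 0 ≤ 43 * B' / x ^ 2 := by positivity
    have hpos : 0 ≤ B + B / Real.log (3 / 2 / (3 / 2 - x / 4)) *
      Real.log ((3 / 2 - x / 4) / (3 / 2 - (3 / 2 - x / 4))) + 1 := by
      have := mul_nonneg hBr0 h30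
      linarith
    calc _ ≤ 2 * (43 * B' / x ^ 2) * (3 / 2) := by
          refine mul_le_mul (by linarith) (by linarith) (by linarith) (by linarith)
      _ = 129 * B' / x ^ 2 := by ring
      _ ≤ _ := by
          refine div_le_div_of_nonneg_right (by linarith) (by positivity)
  have e1 : 3 / 2 - x / 4 - (3 / 2 - x / 2) = x / 4 := by ring
  have e2 : 3 / 2 - x / 2 - (3 / 2 - 3 * x / 4) = x / 4 := by ring
  rw [e1, e2]
  have h10 : 2 * (B + B / Real.log (3 / 2 / (3 / 2 - x / 4)) *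
      Real.log ((3 / 2 - x / 4) / (3 / 2 - (3 / 2 - x / 4))) + 1) * (3 / 2 - x / 2) / (x / 4) / (x / 4) ≤
      2080 * B' / x ^ 4 := by
    calc _ ≤ 130 * B' / x ^ 2 / (x / 4) / (x / 4) := by
          refine div_le_div_of_nonneg_right (div_le_div_of_nonneg_right h7 (by linarith)) (by linarith)
      _ = 2080 * B' / x ^ 4 := by
          field_simp
          ring
  have h11 : B / Real.log (3 / 2 / (3 / 2 - x / 4)) / d ≤ 21 * B' / (x ^ 4 * d) := by
    rw [← div_div]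
    refine div_le_div_of_nonneg_right (h2.trans ?_) hd.le
    rw [div_le_div_iff₀ hx hx4]
    calc 6 * B' * x ^ 4 = 6 * B' * x ^ 3 * x := by ring
      _ ≤ 6 * B' * (27 / 8) * x := by
          refine mul_le_mul_of_nonneg_right (mul_le_mul_of_nonneg_left hx3 (by linarith)) hx.le
      _ ≤ 21 * B' * x := by
          refine mul_le_mul_of_nonneg_right (by linarith) hx.le
  have h12 : 2080 * B' / x ^ 4 ≤ 2080 * B' / (x ^ 4 * d) := by
    refine div_le_div_of_nonneg_left (by linarith) (by positivity) ?_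
    exact mul_le_of_le_one_right hx4.le hd1
  calc _ ≤ 21 * B' / (x ^ 4 * d) + 2080 * B' / (x ^ 4 * d) := add_le_add h11 (h10.trans h12)
    _ = 2101 * B' / (x ^ 4 * d) := by ring
    _ ≤ 4000 * B' / (x ^ 4 * d) := by
        refine div_le_div_of_nonneg_right (by linarith) (by positivity)
    _ = _ := by rw [hB']; ring

end Pool.Agent.Zk3.GA
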