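import Pool.Agent.Zk3.GA.Gen2
import Pool.Agent.Zk3.GL.HW
import Pool.Agent.Zk17.CoCB
import Pool.Agent.Zk1.BIR.Pol

set_option autoImplicit false

/-!
# The density theorem for L-functions with the estimate of Deligne on average
-/

namespace Pool.Agent.Zk3.GA

open Complex Filter Topology Set Metric
open Pool.Agent.Zk3.GL (re_sh im_sh ord_sh fin_box num num_eq FewF)
open Pool.Agent.Zk1.BIR (IsHR Eh)

theorem densR {ε : ℝ} (hε : 0 < ε) (hε1 : ε ≤ 1) : ∃ B c P : ℝ, 1 ≤ B ∧ 0 < c ∧ 0 < P ∧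
    ∀ (D : ℕ) (M A K : ℝ), 1 ≤ M → 1 ≤ A → ∃ C : ℝ, 0 < C ∧ ∀ (i : ℕ) (Pol : ℕ → Polynomial ℂ) (Q : ℝ) (L : ℂ → ℂ), 1 ≤ Q →
    IsHR i D M Pol A Q L →
    (∀ s : ℂ, 1 ≤ s.im → (i : ℝ) / 2 + 1 < s.re → L s ≠ 0) ∧
    (∀ R : ℝ, {z : ℂ | L z = 0 ∧ ((i : ℝ) + 1) / 2 ≤ z.re ∧ 1 ≤ z.im ∧ z.im ≤ R}.Finite) ∧
    ∀ T H δ : ℝ, 3 ≤ T → 1 ≤ H → H ≤ T → 0 < δ → δ ≤ 1 / 2 →
      (num L {s : ℂ | L s = 0 ∧ ((i : ℝ) + 1) / 2 + δ ≤ s.re ∧ T < s.im ∧ s.im ≤ T + H ∧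
        ∀ r : ℝ, s.re - ((i : ℝ) + 1) / 2 ≤ r → r ≤ 1 / 2 →
          (num L {z : ℂ | L z = 0 ∧ ((i : ℝ) + 1) / 2 + (1 - ε) * r ≤ z.re ∧ 1 ≤ z.im ∧
          |z.im - s.im| ≤ B * r * (r / (s.re - ((i : ℝ) + 1) / 2)) ^ ε} : ℝ) ≤ K + c * (r * Real.log H)} : ℝ) ≤
      C * H ^ (1 - (2 - ε) * δ) * (Real.log (Q * T)) ^ P := by
  obtain ⟨B, c, P, hB, hc, hP, hgen⟩ := gen2 hε hε1
  refine ⟨B, c, P, hB, hc, hP, fun D M A K hM hA => ?_⟩
  have hD1 : (1 : ℝ) ≤ (D + 1) * Real.sqrt M := by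
    have h1 : (1 : ℝ) ≤ Real.sqrt M := by rw [Real.one_le_sqrt]; exact hM
    have h2 : (1 : ℝ) ≤ (D : ℝ) + 1 := by have : (0 : ℝ) ≤ D := Nat.cast_nonneg D; linarith
    exact one_le_mul_of_one_le_of_one_le h2 h1
  obtain ⟨E, hE, hco⟩ := Pool.Agent.Zk17.co_of_cb ((D + 1) * Real.sqrt M) hD1
  obtain ⟨C, hC, hG⟩ := hgen (2 * E) (max A (Real.exp (Eh D M))) K (by linarith) (hA.trans (le_max_left _ _))
  refine ⟨C, hC, fun i Pol Q L hQ h => ?_⟩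
  obtain ⟨a, g, hLR⟩ := h.toLR (by linarith) hA hQ
  have hIA : IsA E (max A (Real.exp (Eh D M))) Q (fun w => L (w + (i : ℂ) / 2)) a :=
    ⟨hLR.an, fun s h1 h2 h3 => hLR.growth s (by linarith) h2 h3, hLR.lower, hLR.nz, hco a g hLR.cb, hLR.ld⟩
  have hL := hIA.toB (by linarith)
  have hnz : ∀ s : ℂ, 1 ≤ s.im → (i : ℝ) / 2 + 1 < s.re → L s ≠ 0 := by
    intro s h1 h2
    have h3 := hL.nz (s - (i : ℂ) / 2) (by
      have := re_sh i (s - (i : ℂ) / 2)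
      rw [sub_add_cancel] at this
      linarith) (by
      have := im_sh i (s - (i : ℂ) / 2)
      rw [sub_add_cancel] at this
      linarith)
    simpa using h3
  have hfin : ∀ R : ℝ, {z : ℂ | L z = 0 ∧ ((i : ℝ) + 1) / 2 ≤ z.re ∧ 1 ≤ z.im ∧ z.im ≤ R}.Finite := by
    intro R
    have hi : (0 : ℝ) ≤ i := Nat.cast_nonneg i
    refine (fin_box h.analytic (s₀ := ⟨(i : ℝ) / 2 + 2, 1⟩) one_pos (hnz _ le_rfl (by norm_num))
      (max R ((i : ℝ) / 2 + 1))).subset ?_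
    rintro z ⟨h1, h2, h3, h4⟩
    refine ⟨h1, h3, h4.trans (le_max_left _ _), ?_⟩
    rw [abs_of_nonneg (by linarith)]
    refine le_trans ?_ (le_max_right _ _)
    by_contra h5
    push Not at h5
    exact hnz z h3 h5 h1
  refine ⟨hnz, hfin, fun T H δ hT hH hHT hδ hδ2 => ?_⟩
  have hsfin : {s : ℂ | L s = 0 ∧ ((i : ℝ) + 1) / 2 + δ ≤ s.re ∧ T < s.im ∧ s.im ≤ T + H ∧
      ∀ r : ℝ, s.re - ((i : ℝ) + 1) / 2 ≤ r → r ≤ 1 / 2 →
        (num L {z : ℂ | L z = 0 ∧ ((i : ℝ) + 1) / 2 + (1 - ε) * r ≤ z.re ∧ 1 ≤ z.im ∧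
        |z.im - s.im| ≤ B * r * (r / (s.re - ((i : ℝ) + 1) / 2)) ^ ε} : ℝ) ≤ K + c * (r * Real.log H)}.Finite := by
    refine (hfin (T + H)).subset ?_
    rintro z ⟨h1, h2, h3, h4, -⟩
    exact ⟨h1, by linarith, by linarith, h4⟩
  rw [num_eq hsfin]
  -- shift
  set tr : ℂ → ℂ := fun z => z - (i : ℂ) / 2 with htr
  have hinj : Function.Injective tr := fun x y hxy => by
    rw [htr] at hxy
    simpa using hxy
  have hre : ∀ s : ℂ, (tr s).re = s.re - (i : ℝ) / 2 := by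
    intro s
    have := re_sh i (s - (i : ℂ) / 2)
    rw [sub_add_cancel] at this
    rw [htr]
    linarith
  have him : ∀ s : ℂ, (tr s).im = s.im := by
    intro s
    have := im_sh i (s - (i : ℂ) / 2)
    rw [sub_add_cancel] at this
    rw [htr]
    exact this.symm
  have hord : ∀ s : ℂ, analyticOrderNatAt (fun w => L (w + (i : ℂ) / 2)) (tr s) = analyticOrderNatAt L s := by
    intro s
    rw [ord_sh, htr]
    simp only [sub_add_cancel]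
  have h1 := hG Q _ a hQ hL T H δ hT hH hHT hδ hδ2 (hsfin.toFinset.image tr) (by
    intro w hw
    rw [Finset.mem_image] at hw
    obtain ⟨s, hs, rfl⟩ := hw
    rw [Set.Finite.mem_toFinset] at hs
    obtain ⟨h2, h3, h4, h5, h6⟩ := hs
    refine ⟨by rw [htr]; simpa using h2, by rw [hre]; linarith, by rw [him]; exact h4, by rw [him]; exact h5, ?_⟩
    intro r hr1 hr2 Z hZ
    have hsr : (tr s).re - 1 / 2 = s.re - ((i : ℝ) + 1) / 2 := by rw [hre]; ring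
    rw [hsr] at hZ hr1
    rw [him] at hZ
    have hr0 : 0 < r := by linarith
    have h7 := h6 r hr1 hr2
    set Bx : Set ℂ := {z : ℂ | L z = 0 ∧ ((i : ℝ) + 1) / 2 + (1 - ε) * r ≤ z.re ∧ 1 ≤ z.im ∧
        |z.im - s.im| ≤ B * r * (r / (s.re - ((i : ℝ) + 1) / 2)) ^ ε} with hBx
    have hBfin : Bx.Finite := by
      refine (hfin (s.im + B * r * (r / (s.re - ((i : ℝ) + 1) / 2)) ^ ε)).subset ?_
      rintro z ⟨g1, g2, g3, g4⟩
      have g5 := (abs_le.mp g4).2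
      have g6 : 0 ≤ (1 - ε) * r := mul_nonneg (by linarith) hr0.le
      exact ⟨g1, by linarith, g3, by linarith⟩
    rw [num_eq hBfin] at h7
    refine le_trans ?_ h7
    have e1 : ∑ z ∈ Z, (analyticOrderNatAt (fun w => L (w + (i : ℂ) / 2)) z : ℝ) =
        ∑ z ∈ Z.image (fun z => z + (i : ℂ) / 2), (analyticOrderNatAt L z : ℝ) := by
      rw [Finset.sum_image (fun x _ y _ hxy => by simpa using hxy)]
      refine Finset.sum_congr rfl fun z _ => ?_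
      rw [ord_sh]
    rw [e1]
    refine Finset.sum_le_sum_of_subset_of_nonneg ?_ fun _ _ _ => Nat.cast_nonneg _
    intro z hz
    rw [Finset.mem_image] at hz
    obtain ⟨w, hw, rfl⟩ := hz
    obtain ⟨g1, g2, g3, g4⟩ := hZ w hw
    rw [Set.Finite.mem_toFinset, hBx]
    refine ⟨g1, ?_, ?_, ?_⟩
    · rw [re_sh]; linarith
    · rw [im_sh]; exact g2
    · rw [im_sh]; exact g4)
  rw [Finset.sum_image (fun x _ y _ hxy => hinj hxy)] at h1
  simp only [hord] at h1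
  exact h1

end Pool.Agent.Zk3.GA
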