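import Pool.Agent.Zk3.GA.Def

set_option autoImplicit false

/-!
# The logarithm, coefficients bounded on average (adapted from `Pool.Agent.Zk3.GL.Lfun`)
-/

namespace Pool.Agent.Zk3.GA

open Complex Filter Topology Set
open ArithmeticFunction (vonMangoldt)
open Pool.Agent.Zk3.GL (gl Sx Px Tx cpow_norm tail_le)

/-- the facts on the coefficients, with one constant -/
structure Cb (D : ℝ) (a : ℕ → ℂ) : Prop where
  small : ∀ n : ℕ, n ≤ 1 → a n = 0
  lin : ∀ n : ℕ, ‖a n‖ ≤ D * n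
  glin : ∀ n : ℕ, ‖gl a n‖ ≤ D * n
  sum2 : Summable (fun n : ℕ => ‖a n‖ * (n : ℝ) ^ (-2 : ℝ))
  le2 : ∑' n : ℕ, ‖a n‖ * (n : ℝ) ^ (-2 : ℝ) ≤ D
  gsum2 : Summable (fun n : ℕ => ‖gl a n‖ * (n : ℝ) ^ (-2 : ℝ))
  gle2 : ∑' n : ℕ, ‖gl a n‖ * (n : ℝ) ^ (-2 : ℝ) ≤ 2 * D
  absc : LSeries.abscissaOfAbsConv (gl a) ≤ 1
  primes : ∀ N : ℕ, 1 ≤ N → ∑ p ∈ (Finset.Icc 1 N).filter Nat.Prime, ‖gl a p‖ ^ 2 * Real.log p / p ≤
    D ^ 2 * (Real.log N + 6) ^ 2
  powers : ∀ N : ℕ, 1 ≤ N → ∑ n ∈ (Finset.Ioc 0 N).filter (fun n : ℕ => ¬ n.Prime), ‖a n‖ / Real.sqrt n ≤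
    D * (2 + Real.log N) ^ 2

/-- the class, with these facts -/
structure IsB (D A Q : ℝ) (F : ℂ → ℂ) (a : ℕ → ℂ) : Prop where
  an : ∀ s : ℂ, 0 < s.im → AnalyticAt ℂ F s
  growth : ∀ s : ℂ, 1 / 4 ≤ s.re → s.re ≤ 4 → 1 ≤ s.im → ‖F s‖ ≤ A * (Q * s.im) ^ A
  lower : ∀ t : ℝ, 1 ≤ t → A⁻¹ ≤ ‖F (⟨2, t⟩ : ℂ)‖
  nz : ∀ s : ℂ, 1 < s.re → 1 ≤ s.im → F s ≠ 0
  coef : Cb D a
  ld : ∀ s : ℂ, 1 < s.re → 1 ≤ s.im → deriv F s / F s = - ∑' n : ℕ, a n * (n : ℂ) ^ (-s)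

lemma gl_norm_le {E : ℝ} {a : ℕ → ℂ} (h : Co E a) (n : ℕ) : ‖gl a n‖ ≤ 2 * ‖a n‖ := by
  rcases Nat.lt_or_ge n 2 with hn | hn
  · have h0 : a n = 0 := h.small n (by omega)
    unfold gl
    rw [h0]
    simp
  · have hl : (1 / 2 : ℝ) ≤ Real.log n := by
      have h1 : Real.log 2 ≤ Real.log n := Real.log_le_log (by norm_num) (by exact_mod_cast hn)
      linarith [Real.log_two_gt_d9]
    unfold gl
    rw [norm_div, Complex.norm_real, Real.norm_of_nonneg (by linarith), div_le_iff₀ (by linarith)]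
    have := norm_nonneg (a n)
    nlinarith

lemma Co.toCb {E : ℝ} {a : ℕ → ℂ} (hE : 0 ≤ E) (h : Co E a) : Cb (2 * E) a := by
  have hg := gl_norm_le h
  have hs : Summable (fun n : ℕ => ‖gl a n‖ * (n : ℝ) ^ (-2 : ℝ)) := by
    refine Summable.of_nonneg_of_le (fun n => mul_nonneg (norm_nonneg _) (Real.rpow_nonneg (Nat.cast_nonneg n) _))
      (fun n => ?_) (h.sum2.mul_left 2)
    rw [← mul_assoc]
    exact mul_le_mul_of_nonneg_right (hg n) (Real.rpow_nonneg (Nat.cast_nonneg n) _)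
  refine ⟨h.small, fun n => ?_, fun n => ?_, h.sum2, ?_, hs, ?_, h.absc, fun N hN => ?_, fun N hN => ?_⟩
  · refine (h.lin n).trans ?_
    have : 0 ≤ E * n := mul_nonneg hE (Nat.cast_nonneg n)
    linarith
  · have h1 := hg n
    have h2 := h.lin n
    linarith
  · exact h.le2.trans (by linarith)
  · have h1 := Summable.tsum_le_tsum (f := fun n : ℕ => ‖gl a n‖ * (n : ℝ) ^ (-2 : ℝ))
      (g := fun n : ℕ => 2 * (‖a n‖ * (n : ℝ) ^ (-2 : ℝ))) (fun n => by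
        rw [← mul_assoc]
        exact mul_le_mul_of_nonneg_right (hg n) (Real.rpow_nonneg (Nat.cast_nonneg n) _)) hs (h.sum2.mul_left 2)
    rw [tsum_mul_left] at h1
    have := h.le2
    linarith
  · refine (h.primes N hN).trans ?_
    refine mul_le_mul_of_nonneg_right ?_ (sq_nonneg _)
    nlinarith
  · refine (h.powers N hN).trans ?_
    refine mul_le_mul_of_nonneg_right (by linarith) (sq_nonneg _)

lemma IsA.toB {E A Q : ℝ} {F : ℂ → ℂ} {a : ℕ → ℂ} (hE : 0 ≤ E) (h : IsA E A Q F a) : IsB (2 * E) A Q F a :=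
  ⟨h.an, h.growth, h.lower, h.nz, h.coef.toCb hE, h.ld⟩

variable {D A Q : ℝ} {F : ℂ → ℂ} {a : ℕ → ℂ}

lemma gl_log (h : Cb D a) (n : ℕ) : gl a n * (Real.log n : ℂ) = a n := by
  unfold gl
  rcases le_or_gt n 1 with hn | hn
  · rw [h.small n hn]; simp
  · have : Real.log n ≠ 0 := (Real.log_pos (by exact_mod_cast hn)).ne'
    rw [div_mul_cancel₀]
    exact_mod_cast this

lemma Px_deriv (h : Cb D a) (X : ℝ) (s : ℂ) :
    HasDerivAt (Px a X) (-(Sx a X s)) s := by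
  unfold Px Sx
  rw [← Finset.sum_neg_distrib]
  refine HasDerivAt.fun_sum fun n hn => ?_
  have hn0 : n ≠ 0 := by have := (Finset.mem_Ioc.mp hn).1; omega
  have h1 : HasDerivAt (fun s : ℂ => (n : ℂ) ^ (-s)) ((n : ℂ) ^ (-s) * Complex.log n * (-1)) s :=
    (hasDerivAt_neg s).const_cpow (Or.inl (by exact_mod_cast hn0))
  have h2 := h1.const_mul (gl a n)
  refine h2.congr_deriv ?_
  rw [← gl_log h n, Complex.natCast_log]
  ring

lemma Tx_le (h : Cb D a) {s : ℂ} (hs : 2 ≤ s.re) :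
    ‖Tx a s‖ ≤ 2 * D ∧ ∀ X : ℝ, ‖Px a X s‖ ≤ 2 * D := by
  have hterm : ∀ n : ℕ, ‖gl a n * (n : ℂ) ^ (-s)‖ ≤ ‖gl a n‖ * (n : ℝ) ^ (-2 : ℝ) := by
    intro n
    rcases Nat.eq_zero_or_pos n with rfl | hn
    · have h0 : gl a 0 = 0 := by
        unfold gl
        rw [h.small 0 (by norm_num)]
        simp
      rw [h0]
      simp
    · rw [norm_mul, cpow_norm hn]
      refine mul_le_mul_of_nonneg_left ?_ (norm_nonneg _)
      exact Real.rpow_le_rpow_of_exponent_le (by exact_mod_cast hn) (by linarith)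
  constructor
  · unfold Tx
    exact (tsum_of_norm_bounded h.gsum2.hasSum hterm).trans h.gle2
  · intro X
    unfold Px
    refine (norm_sum_le _ _).trans ((Finset.sum_le_sum fun n _ => hterm n).trans ?_)
    exact (h.gsum2.sum_le_tsum (Finset.Ioc 0 ⌊X⌋₊) (fun n _ => mul_nonneg (norm_nonneg _)
      (Real.rpow_nonneg (Nat.cast_nonneg n) _))).trans h.gle2

lemma Tx_deriv (h : Cb D a) {s : ℂ} (hs : 1 < s.re) :
    HasDerivAt (Tx a) (-(∑' n : ℕ, a n * (n : ℂ) ^ (-s))) s := by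
  have habs : LSeries.abscissaOfAbsConv (gl a) < s.re := by
    refine lt_of_le_of_lt h.absc ?_
    exact_mod_cast hs
  have h1 := LSeries_hasDerivAt habs
  have e0 : gl a 0 = 0 := by
    unfold gl
    rw [h.small 0 (by norm_num)]
    simp
  have e1 : LSeries (gl a) = Tx a := by
    funext z
    unfold LSeries Tx
    refine tsum_congr fun n => ?_
    rcases Nat.eq_zero_or_pos n with rfl | hn
    · rw [LSeries.term_zero, e0, zero_mul]
    · rw [LSeries.term_of_ne_zero hn.ne', Complex.cpow_neg, div_eq_mul_inv]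
  have e2 : LSeries (LSeries.logMul (gl a)) s = ∑' n : ℕ, a n * (n : ℂ) ^ (-s) := by
    unfold LSeries
    refine tsum_congr fun n => ?_
    rcases Nat.eq_zero_or_pos n with rfl | hn
    · rw [LSeries.term_zero, h.small 0 (by norm_num), zero_mul]
    · rw [LSeries.term_of_ne_zero hn.ne', Complex.cpow_neg, div_eq_mul_inv, LSeries.logMul, ← gl_log h n,
        Complex.natCast_log]
      ring
  rw [e1, e2] at h1
  exact h1

/-- The logarithm of `F`. -/
theorem log_rep (hF : IsB D A Q F a) (hD : 0 ≤ D) (hA : 1 ≤ A) : ∃ c : ℂ, A⁻¹ * Real.exp (-(2 * D)) ≤ ‖c‖ ∧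
    ∀ s : ℂ, 1 < s.re → 1 < s.im → F s = c * Complex.exp (Tx a s) := by
  set U : Set ℂ := {s : ℂ | 1 < s.re ∧ 1 < s.im} with hU
  have hUo : IsOpen U := (isOpen_lt continuous_const continuous_re).inter (isOpen_lt continuous_const continuous_im)
  have hUc : IsPreconnected U := by
    have h1 := (convex_Ioi (1 : ℝ)).linear_preimage Complex.reLm
    have h2 := (convex_Ioi (1 : ℝ)).linear_preimage Complex.imLm
    exact (h1.inter h2).isPreconnected
  have hd : ∀ s ∈ U, HasDerivAt (fun s => F s * Complex.exp (-(Tx a s))) 0 s := by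
    intro s hs
    have h1 : HasDerivAt F (deriv F s) s := (hF.an s (by linarith [hs.2])).differentiableAt.hasDerivAt
    have h2 := (Tx_deriv hF.coef hs.1).neg.cexp
    have h3 := h1.mul h2
    have h4 := hF.ld s hs.1 hs.2.le
    have h5 := hF.nz s hs.1 hs.2.le
    rw [div_eq_iff h5] at h4
    refine h3.congr_deriv ?_
    rw [h4]
    ring
  have h22 : (⟨2, 2⟩ : ℂ) ∈ U := by constructor <;> norm_num
  refine ⟨F ⟨2, 2⟩ * Complex.exp (-(Tx a ⟨2, 2⟩)), ?_, ?_⟩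
  · rw [norm_mul, Complex.norm_exp]
    refine mul_le_mul (hF.lower 2 (by norm_num)) (Real.exp_le_exp.mpr ?_) (Real.exp_pos _).le (norm_nonneg _)
    have h1 := (Tx_le hF.coef (s := ⟨2, 2⟩) le_rfl).1
    have h2 := Complex.abs_re_le_norm (Tx a ⟨2, 2⟩)
    rw [Complex.neg_re]
    have h3 := le_abs_self (Tx a ⟨2, 2⟩).re
    linarith
  · intro s hs1 hs2
    have h1 := hUo.is_const_of_deriv_eq_zero hUc (f := fun s => F s * Complex.exp (-(Tx a s)))
      (fun z hz => (hd z hz).differentiableAt.differentiableWithinAt) (fun z hz => (hd z hz).deriv)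
      (x := s) (y := ⟨2, 2⟩) ⟨hs1, hs2⟩ h22
    rw [← h1, mul_assoc, ← Complex.exp_add, neg_add_cancel, Complex.exp_zero, mul_one]

/-- far to the right -/
theorem far (hF : IsB D A Q F a) (hD : 0 ≤ D) {c : ℂ} (hc0 : c ≠ 0)
    (hc : ∀ s : ℂ, 1 < s.re → 1 < s.im → F s = c * Complex.exp (Tx a s)) {X : ℝ} (hX : 1 ≤ X) {s : ℂ}
    (hs : 3 ≤ s.re) (him : 1 < s.im) :
    ‖deriv F s / F s + Sx a X s‖ ≤ 2 * D * X ^ (3 - s.re) ∧
    (2 * D * X ^ (3 - s.re) ≤ 1 → ‖F s * Complex.exp (-(Px a X s)) / c - 1‖ ≤ 4 * D * X ^ (3 - s.re)) := by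
  constructor
  · rw [hF.ld s (by linarith) him.le]
    have h1 := (tail_le (b := a) hD hX hF.coef.lin hs).2
    unfold Sx
    rw [← norm_neg] at h1
    refine le_trans (le_of_eq ?_) h1
    congr 1
    ring
  · intro hsm
    rw [hc s (by linarith) him]
    have h1 := (tail_le (b := gl a) hD hX hF.coef.glin hs).2
    have e1 : c * Complex.exp (Tx a s) * Complex.exp (-(Px a X s)) / c = Complex.exp (Tx a s - Px a X s) := by
      rw [sub_eq_add_neg, Complex.exp_add]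
      field_simp
    rw [e1]
    have h2 : ‖Tx a s - Px a X s‖ ≤ 2 * D * X ^ (3 - s.re) := h1
    have h3 := Complex.norm_exp_sub_one_le (h2.trans hsm)
    linarith

end Pool.Agent.Zk3.GA
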