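import Pool.Agent.Zk3.GL.MP

set_option autoImplicit false

/-!
Large values of prime sums `∑ c_p log p p^(-s)`, `c_p` bounded on average (adapted from `Pool.Agent.Zk3.GL.MP`).
-/

namespace Pool.Agent.Zk3.GA

open Complex Filter Topology MeasureTheory Set
open Pool.Agent.Zk2.DH (cpow_re_im geo_bound all_scales half_pow_sum)
open Pool.Agent.Zk3.GL (SS SS_eq SS_add SS_diff fS fS_diff fS_norm SS_blocks)

/-- bounded on average -/
def Hc (c : ℕ → ℂ) : Prop := ∀ N : ℕ, 1 ≤ N →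
  ∑ p ∈ (Finset.Icc 1 N).filter Nat.Prime, ‖c p‖ ^ 2 * Real.log p / p ≤ Real.log N + 6

/-- Moments of one block. -/
lemma block_moment (c : ℕ → ℂ) (hc1 : Hc c) (T a b u : ℝ) (k : ℕ) (hT : 8 ≤ T) (hb : 0 < b)
    (hk : 1 ≤ k) (hkb : k * b ≤ 1) (hu : 0 ≤ u) :
    ∫ y in (T / 4)..(4 * T), ‖fS c (T ^ a) (T ^ b) (a * Real.log T) (u + y * I)‖ ^ (2 * k) ≤
      300 * T * ((k.factorial : ℝ) * (b * Real.log T * (b * Real.log T + 6)) ^ k) := by
  have hT0 : 0 < T := by linarith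
  have hT1 : 1 < T := by linarith
  have hL : 0 < Real.log T := Real.log_pos hT1
  set L := Real.log T with hLdef
  set N : ℕ := ⌊T ^ b⌋₊ with hN
  have hTb1 : 1 ≤ T ^ b := Real.one_le_rpow hT1.le hb.le
  have hN1 : 1 ≤ N := by
    rw [hN, Nat.one_le_floor_iff]
    exact hTb1
  have hNT : (N : ℝ) ≤ T ^ b := Nat.floor_le (by positivity)
  have hNk : (N : ℝ) ^ k ≤ T := by
    refine (pow_le_pow_left₀ (by positivity) hNT k).trans ?_
    rw [← Real.rpow_natCast, ← Real.rpow_mul hT0.le]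
    nth_rw 2 [← Real.rpow_one T]
    exact Real.rpow_le_rpow_of_exponent_le hT1.le (by linarith)
  set e : ℕ → ℂ := fun p => if T ^ a < (p : ℝ) then
    c p * ((Real.log p * ((p : ℝ) ^ (-(1 / 2 + u)) * Real.exp (a * L * u)) : ℝ) : ℂ) else 0 with he
  have hm := Pool.Agent.Zk3.DH.momentLF e N k hN1 (T / 4) (4 * T) (by linarith)
  have e1 : ∀ y : ℝ, ‖fS c (T ^ a) (T ^ b) (a * L) (u + y * I)‖ =
      ‖∑ p ∈ (Finset.Icc 1 N).filter Nat.Prime, e p * (p : ℂ) ^ (-(y : ℂ) * I)‖ := by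
    intro y
    have h1 : ‖fS c (T ^ a) (T ^ b) (a * L) (u + y * I)‖ =
        ‖((Real.exp (a * L * u) : ℝ) : ℂ) * SS c (T ^ a) (T ^ b) (1 / 2 + (u + y * I))‖ := by
      rw [fS_norm, norm_mul, Complex.norm_real, Real.norm_eq_abs, abs_of_pos (Real.exp_pos _), mul_comm]
      simp
    rw [h1, SS_eq, Finset.mul_sum]
    congr 1
    refine Finset.sum_congr rfl (fun p hp => ?_)
    have hp0 : p ≠ 0 := (Finset.mem_filter.mp hp).2.ne_zero
    rw [he]
    simp only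
    split_ifs with h
    · rw [cpow_re_im p hp0]
      push_cast
      ring
    · simp
  have e2 : ∫ y in (T / 4)..(4 * T), ‖fS c (T ^ a) (T ^ b) (a * L) (u + y * I)‖ ^ (2 * k) =
      ∫ t in (T / 4)..(4 * T), ‖∑ p ∈ (Finset.Icc 1 N).filter Nat.Prime, e p *
        (p : ℂ) ^ (-(t : ℂ) * I)‖ ^ (2 * k) := by
    refine intervalIntegral.integral_congr (fun y _ => ?_)
    change ‖fS c (T ^ a) (T ^ b) (a * L) (u + y * I)‖ ^ (2 * k) = _
    rw [e1]
  rw [e2]
  refine hm.trans ?_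
  have hlogN : Real.log N ≤ b * L := by
    have h1 : Real.log N ≤ Real.log (T ^ b) := Real.log_le_log (by exact_mod_cast hN1) hNT
    rwa [Real.log_rpow hT0] at h1
  have hlogN0 : 0 ≤ Real.log N := Real.log_nonneg (by exact_mod_cast hN1)
  have hsum : ∑ p ∈ (Finset.Icc 1 N).filter Nat.Prime, ‖e p‖ ^ 2 ≤ b * L * (b * L + 6) := by
    have h1 : ∀ p ∈ (Finset.Icc 1 N).filter Nat.Prime, ‖e p‖ ^ 2 ≤
        Real.log N * (‖c p‖ ^ 2 * Real.log p / p) := by
      intro p hp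
      obtain ⟨hp1, hpp⟩ := Finset.mem_filter.mp hp
      have hp0 : (0 : ℝ) < p := by exact_mod_cast hpp.pos
      have hp1' : (1 : ℝ) ≤ p := by exact_mod_cast hpp.one_lt.le
      have hlp : 0 ≤ Real.log p := Real.log_nonneg hp1'
      have hlpN : Real.log p ≤ Real.log N :=
        Real.log_le_log hp0 (by exact_mod_cast (Finset.mem_Icc.mp hp1).2)
      rw [he]
      simp only
      split_ifs with h
      · rw [norm_mul, mul_pow, Complex.norm_real, Real.norm_eq_abs, sq_abs, mul_pow]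
        have h2 : ((p : ℝ) ^ (-(1 / 2 + u)) * Real.exp (a * L * u)) ^ 2 ≤ (p : ℝ)⁻¹ := by
          have h3 := Pool.Agent.Zk3.DH.coef_sq T a u p hT0 hu hpp.one_lt.le h
          rw [Complex.norm_real, Real.norm_eq_abs, sq_abs] at h3
          have e : a * u * Real.log T = a * L * u := by ring
          rwa [e] at h3
        calc ‖c p‖ ^ 2 * (Real.log p ^ 2 * ((p : ℝ) ^ (-(1 / 2 + u)) * Real.exp (a * L * u)) ^ 2)
            ≤ ‖c p‖ ^ 2 * (Real.log p ^ 2 * (p : ℝ)⁻¹) :=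
              mul_le_mul_of_nonneg_left (mul_le_mul_of_nonneg_left h2 (by positivity)) (by positivity)
          _ = Real.log p * (‖c p‖ ^ 2 * Real.log p / p) := by ring
          _ ≤ Real.log N * (‖c p‖ ^ 2 * Real.log p / p) := mul_le_mul_of_nonneg_right hlpN (by positivity)
      · simp
        positivity
    refine (Finset.sum_le_sum h1).trans ?_
    rw [← Finset.mul_sum]
    have h2 := hc1 N hN1
    have h3 : 0 ≤ ∑ p ∈ (Finset.Icc 1 N).filter Nat.Prime, ‖c p‖ ^ 2 * Real.log p / (p : ℝ) :=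
      Finset.sum_nonneg (fun d _ => div_nonneg (mul_nonneg (by positivity) (Real.log_natCast_nonneg d))
        (Nat.cast_nonneg _))
    calc Real.log N * ∑ p ∈ (Finset.Icc 1 N).filter Nat.Prime, ‖c p‖ ^ 2 * Real.log p / (p : ℝ)
        ≤ (b * L) * (Real.log N + 6) := mul_le_mul hlogN h2 h3 (by positivity)
      _ ≤ b * L * (b * L + 6) := mul_le_mul_of_nonneg_left (by linarith) (by positivity)
  have hsum0 : 0 ≤ ∑ p ∈ (Finset.Icc 1 N).filter Nat.Prime, ‖e p‖ ^ 2 :=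
    Finset.sum_nonneg (fun _ _ => by positivity)
  have h60 : 60 * (4 * T - T / 4 + (N : ℝ) ^ k) ≤ 300 * T := by linarith
  exact mul_le_mul h60 (mul_le_mul_of_nonneg_left (pow_le_pow_left₀ hsum0 hsum k) (by positivity))
    (by positivity) (by positivity)

/-- Large values of one block. -/
lemma block_large : ∃ C : ℝ, 0 < C ∧ ∀ (c : ℕ → ℂ), Hc c →
    ∀ (T a b x W v : ℝ) (k : ℕ), 8 ≤ T → 0 < b → 1 ≤ k → k * b ≤ 1 →
    0 ≤ a → 6 ≤ b * Real.log T → 0 < x → x ≤ W → W ≤ T / 8 → 0 < v →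
    volume {t : ℝ | T / 2 ≤ t ∧ t ≤ 3 * T ∧ ∃ z : ℂ, x ≤ z.re ∧ z.re ≤ 2 * x ∧ |z.im - t| ≤ W ∧
      v * Real.log T < ‖SS c (T ^ a) (T ^ b) (1 / 2 + z)‖} ≤
    ENNReal.ofReal (C * T * (W / x) * (2 * b / v ^ 2) ^ k * Real.exp (-(2 * (k * a) * x * Real.log T))) := by
  obtain ⟨C, hC, hmx⟩ := Pool.Agent.Zk3.DH.sMX (1 / 2) (by norm_num) le_rfl
  refine ⟨C * 300, by positivity, ?_⟩
  intro c hc1 T a b x W v k hT hb hk hkb ha hbL hx hxW hWT hv
  have hT0 : 0 < T := by linarith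
  have hT1 : 1 < T := by linarith
  have hL : 0 < Real.log T := Real.log_pos hT1
  set L := Real.log T with hLdef
  have hkR : (1 : ℝ) ≤ k := by exact_mod_cast hk
  have h1 := hmx k T x W (300 * T * ((k.factorial : ℝ) * (b * L * (b * L + 6)) ^ k))
    (v * L * Real.exp (a * L * x)) (fS c (T ^ a) (T ^ b) (a * L)) hk hT hx hxW hWT (by linarith)
    (by positivity) (by positivity) (fun z _ => fS_diff _ _ _ _ z)
    (fun u hu1 _ => block_moment c hc1 T a b u k hT hb hk hkb (by nlinarith))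
  have hset : {t : ℝ | T / 2 ≤ t ∧ t ≤ 3 * T ∧ ∃ z : ℂ, x ≤ z.re ∧ z.re ≤ 2 * x ∧ |z.im - t| ≤ W ∧
      v * L < ‖SS c (T ^ a) (T ^ b) (1 / 2 + z)‖} ⊆
      {t : ℝ | T / 2 ≤ t ∧ t ≤ 3 * T ∧ ∃ z : ℂ, x ≤ z.re ∧ z.re ≤ 2 * x ∧ |z.im - t| ≤ W ∧
        v * L * Real.exp (a * L * x) < ‖fS c (T ^ a) (T ^ b) (a * L) z‖} := by
    rintro t ⟨ht1, ht2, z, hz1, hz2, hz3, hz4⟩
    refine ⟨ht1, ht2, z, hz1, hz2, hz3, ?_⟩
    rw [fS_norm]
    have h2 : Real.exp (a * L * x) ≤ Real.exp (a * L * z.re) :=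
      Real.exp_le_exp.mpr (mul_le_mul_of_nonneg_left hz1 (by positivity))
    calc v * L * Real.exp (a * L * x) ≤ v * L * Real.exp (a * L * z.re) :=
          mul_le_mul_of_nonneg_left h2 (by positivity)
      _ < _ := mul_lt_mul_of_pos_right hz4 (Real.exp_pos _)
  refine (measure_mono hset).trans (h1.trans (ENNReal.ofReal_le_ofReal ?_))
  -- the arithmetic
  have h2 : (k.factorial : ℝ) ≤ (k : ℝ) ^ k := by exact_mod_cast Nat.factorial_le_pow k
  have h3 : b * L * (b * L + 6) ≤ 2 * (b * L) ^ 2 := by nlinarith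
  have h4 : (k.factorial : ℝ) * (b * L * (b * L + 6)) ^ k ≤ (2 * b * L ^ 2) ^ k := by
    calc (k.factorial : ℝ) * (b * L * (b * L + 6)) ^ k ≤ (k : ℝ) ^ k * (2 * (b * L) ^ 2) ^ k :=
          mul_le_mul h2 (pow_le_pow_left₀ (by positivity) h3 k) (by positivity) (by positivity)
      _ = (k * (2 * (b * L) ^ 2)) ^ k := (mul_pow _ _ _).symm
      _ ≤ (2 * b * L ^ 2) ^ k := by
          refine pow_le_pow_left₀ (by positivity) ?_ k
          have : k * (2 * (b * L) ^ 2) = (k * b) * (2 * b * L ^ 2) := by ring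
          rw [this]
          exact mul_le_of_le_one_left (by positivity) hkb
  have h5 : ((v * L * Real.exp (a * L * x)) ^ (2 * k))⁻¹ =
      ((v * L) ^ (2 * k))⁻¹ * Real.exp (-(2 * (k * a) * x * L)) := by
    rw [mul_pow, mul_inv, ← Real.exp_nat_mul, Real.exp_neg]
    congr 2
    push_cast
    ring_nf
  have h6 : (2 * b * L ^ 2) ^ k * ((v * L) ^ (2 * k))⁻¹ = (2 * b / v ^ 2) ^ k := by
    rw [pow_mul, ← inv_pow, ← mul_pow]
    congr 1
    field_simp
  rw [h5]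
  have hWx : 0 ≤ W / x := div_nonneg (by linarith) hx.le
  calc C * (W / x) * (300 * T * ((k.factorial : ℝ) * (b * L * (b * L + 6)) ^ k)) *
        (((v * L) ^ (2 * k))⁻¹ * Real.exp (-(2 * (k * a) * x * L)))
      ≤ C * (W / x) * (300 * T * ((2 * b * L ^ 2) ^ k)) *
        (((v * L) ^ (2 * k))⁻¹ * Real.exp (-(2 * (k * a) * x * L))) := by gcongr
    _ = C * 300 * T * (W / x) * ((2 * b * L ^ 2) ^ k * ((v * L) ^ (2 * k))⁻¹) *
        Real.exp (-(2 * (k * a) * x * L)) := by ring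
    _ = _ := by rw [h6]

/-- One dyadic scale. -/
lemma scale_large (a0 η ε : ℝ) (ha0 : 0 < a0) (ha : 8 * a0 ≤ ε) (hε : ε ≤ 1) (hη : 0 < η) :
    ∃ C : ℝ, 0 < C ∧ ∀ (c : ℕ → ℂ), Hc c → ∀ (T x W : ℝ) (I : ℕ), 8 ≤ T →
    (∀ i < I, 6 ≤ a0 * (1 - ε / 32) ^ (4 * i) * Real.log T) → 0 < x → x ≤ W → W ≤ T / 8 →
    volume {t : ℝ | T / 2 ≤ t ∧ t ≤ 3 * T ∧ ∃ z : ℂ, x ≤ z.re ∧ z.re ≤ 2 * x ∧ |z.im - t| ≤ W ∧
      η / 2 * Real.log T < ‖SS c (T ^ (a0 * (1 - ε / 32) ^ (4 * I))) (T ^ a0) (1 / 2 + z)‖} ≤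
    ENNReal.ofReal (C * T * (W / x) * Real.exp (-(2 * (1 - ε / 2) * x * Real.log T))) := by
  set q : ℝ := 1 - ε / 32 with hq
  have hε0 : 0 < ε := by linarith
  have hq0 : 0 < q := by rw [hq]; linarith
  have hq1 : q < 1 := by rw [hq]; linarith
  obtain ⟨C1, hC1, hbl⟩ := block_large
  set A : ℝ := 8 * a0 / ((1 - q) ^ 2 * η ^ 2) with hA
  have hA0 : 0 < A := by
    have : 0 < 1 - q := by linarith
    positivity
  obtain ⟨C2, hC2, hgeo⟩ := geo_bound a0 q A ha0 hq0 hq1.le hA0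
  refine ⟨C1 * C2 * (1 / (1 - q)), by
    have : 0 < 1 - q := by linarith
    positivity, ?_⟩
  intro c hc1 T x W I hT hI hx hxW hWT
  have hT0 : 0 < T := by linarith
  have hL : 0 < Real.log T := Real.log_pos (by linarith)
  set L := Real.log T with hLdef
  have h1q : 0 < 1 - q := by linarith
  have hWx : 0 ≤ W / x := div_nonneg (by linarith) hx.le
  -- one block
  have hone : ∀ i ∈ Finset.range I,
      volume {t : ℝ | T / 2 ≤ t ∧ t ≤ 3 * T ∧ ∃ z : ℂ, x ≤ z.re ∧ z.re ≤ 2 * x ∧ |z.im - t| ≤ W ∧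
        ((1 - q) / 2 * η * q ^ i) * L <
          ‖SS c (T ^ (a0 * q ^ (4 * (i + 1)))) (T ^ (a0 * q ^ (4 * i))) (1 / 2 + z)‖} ≤
      ENNReal.ofReal (C1 * C2 * T * (W / x) * Real.exp (-(2 * (1 - ε / 2) * x * L)) * q ^ i) := by
    intro i hi
    have hiI := hI i (Finset.mem_range.mp hi)
    set b : ℝ := a0 * q ^ (4 * i) with hb
    have hb0 : 0 < b := by positivity
    have hba0 : b ≤ a0 := mul_le_of_le_one_right ha0.le (pow_le_one₀ hq0.le hq1.le)
    have hb8 : b ≤ 1 / 8 := by linarith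
    set k : ℕ := ⌊1 / b⌋₊ with hk
    have hk1 : 1 ≤ k := by
      rw [hk, Nat.one_le_floor_iff, le_div_iff₀ hb0]
      linarith
    have hkb : (k : ℝ) * b ≤ 1 := by
      have := Nat.floor_le (a := 1 / b) (by positivity)
      rwa [le_div_iff₀ hb0] at this
    have hkb2 : 1 - b ≤ (k : ℝ) * b := by
      have := Nat.lt_floor_add_one (1 / b)
      rw [div_lt_iff₀ hb0] at this
      have h2 : ((⌊1 / b⌋₊ : ℝ) + 1) * b = k * b + b := by rw [hk]; ring
      linarith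
    have h1 := hbl c hc1 T (a0 * q ^ (4 * (i + 1))) b x W ((1 - q) / 2 * η * q ^ i) k hT hb0 hk1 hkb (by positivity)
      hiI hx hxW hWT (by positivity)
    refine h1.trans (ENNReal.ofReal_le_ofReal ?_)
    have h2 : (2 * b / ((1 - q) / 2 * η * q ^ i) ^ 2) ^ k ≤ C2 * q ^ (2 * i) := by
      have e : 2 * b / ((1 - q) / 2 * η * q ^ i) ^ 2 = A * q ^ (2 * i) := by
        have e1 : q ^ (4 * i) = q ^ (2 * i) * (q ^ i) ^ 2 := by ring
        rw [hA, hb, e1]
        field_simp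
        ring
      rw [e]
      exact hgeo i k hk1 hkb
    have h3 : q ^ (2 * i) ≤ q ^ i := pow_le_pow_of_le_one hq0.le hq1.le (by omega)
    have h4 : Real.exp (-(2 * (k * (a0 * q ^ (4 * (i + 1)))) * x * L)) ≤
        Real.exp (-(2 * (1 - ε / 2) * x * L)) := by
      refine Real.exp_le_exp.mpr (neg_le_neg ?_)
      have h5 : 1 - ε / 2 ≤ k * (a0 * q ^ (4 * (i + 1))) := by
        have h6 : (k : ℝ) * (a0 * q ^ (4 * (i + 1))) = (k * b) * q ^ 4 := by
          rw [hb]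
          ring
        rw [h6]
        have h7 : 1 - ε / 8 ≤ q ^ 4 := by
          have := one_add_mul_le_pow (a := -(ε / 32)) (by linarith) 4
          have e2 : 1 + -(ε / 32) = q := by rw [hq]; ring
          rw [e2] at this
          norm_num at this
          linarith
        have h8 : 1 - ε / 8 ≤ k * b := by linarith
        have h9 : (1 - ε / 8) * (1 - ε / 8) ≤ (k * b) * q ^ 4 :=
          mul_le_mul h8 h7 (by linarith) (by positivity)
        nlinarith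
      gcongr
    have h5 : 0 ≤ C1 * T * (W / x) := by positivity
    calc C1 * T * (W / x) * (2 * b / ((1 - q) / 2 * η * q ^ i) ^ 2) ^ k *
          Real.exp (-(2 * (k * (a0 * q ^ (4 * (i + 1)))) * x * L))
        ≤ C1 * T * (W / x) * (C2 * q ^ i) * Real.exp (-(2 * (1 - ε / 2) * x * L)) := by
          refine mul_le_mul (mul_le_mul_of_nonneg_left (h2.trans ?_) h5) h4 (by positivity) (by positivity)
          exact mul_le_mul_of_nonneg_left h3 hC2.le
      _ = _ := by ring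
  -- the union
  have hsub : {t : ℝ | T / 2 ≤ t ∧ t ≤ 3 * T ∧ ∃ z : ℂ, x ≤ z.re ∧ z.re ≤ 2 * x ∧ |z.im - t| ≤ W ∧
      η / 2 * L < ‖SS c (T ^ (a0 * q ^ (4 * I))) (T ^ a0) (1 / 2 + z)‖} ⊆
      ⋃ i ∈ Finset.range I, {t : ℝ | T / 2 ≤ t ∧ t ≤ 3 * T ∧ ∃ z : ℂ, x ≤ z.re ∧ z.re ≤ 2 * x ∧
        |z.im - t| ≤ W ∧ ((1 - q) / 2 * η * q ^ i) * L <
          ‖SS c (T ^ (a0 * q ^ (4 * (i + 1)))) (T ^ (a0 * q ^ (4 * i))) (1 / 2 + z)‖} := by
    rintro t ⟨ht1, ht2, z, hz1, hz2, hz3, hz4⟩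
    by_contra hcon
    rw [mem_iUnion₂] at hcon
    push Not at hcon
    have hall : ∀ i ∈ Finset.range I,
        ‖SS c (T ^ (a0 * q ^ (4 * (i + 1)))) (T ^ (a0 * q ^ (4 * i))) (1 / 2 + z)‖ ≤
          ((1 - q) / 2 * η * q ^ i) * L := by
      intro i hi
      by_contra h
      exact hcon i hi ⟨ht1, ht2, z, hz1, hz2, hz3, not_le.mp h⟩
    rw [SS_blocks c T a0 q (by linarith) ha0 hq0 hq1.le] at hz4
    have h1 := (norm_sum_le _ _).trans (Finset.sum_le_sum hall)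
    have h2 : ∑ i ∈ Finset.range I, ((1 - q) / 2 * η * q ^ i) * L ≤ η / 2 * L := by
      have e : ∑ i ∈ Finset.range I, ((1 - q) / 2 * η * q ^ i) * L =
          (η / 2 * L) * ((1 - q) * ∑ i ∈ Finset.range I, q ^ i) := by
        rw [Finset.mul_sum, Finset.mul_sum]
        refine Finset.sum_congr rfl (fun i _ => by ring)
      rw [e]
      refine mul_le_of_le_one_right (by positivity) ?_
      have h3 := mul_geom_sum q I
      have h4 : 0 ≤ q ^ I := by positivity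
      nlinarith
    linarith
  refine (measure_mono hsub).trans ((measure_biUnion_finset_le _ _).trans
    ((Finset.sum_le_sum hone).trans ?_))
  rw [← ENNReal.ofReal_sum_of_nonneg (fun i _ => by positivity)]
  refine ENNReal.ofReal_le_ofReal ?_
  rw [← Finset.mul_sum]
  have h3 : ∑ i ∈ Finset.range I, q ^ i ≤ 1 / (1 - q) := by
    rw [le_div_iff₀ h1q]
    have h3 := mul_geom_sum q I
    have h4 : 0 ≤ q ^ I := by positivity
    nlinarith
  calc C1 * C2 * T * (W / x) * Real.exp (-(2 * (1 - ε / 2) * x * L)) * ∑ i ∈ Finset.range I, q ^ i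
      ≤ C1 * C2 * T * (W / x) * Real.exp (-(2 * (1 - ε / 2) * x * L)) * (1 / (1 - q)) :=
        mul_le_mul_of_nonneg_left h3 (by positivity)
    _ = _ := by ring

/-- the sum of the coefficients, by the inequality of the means -/
lemma sum_am {c : ℕ → ℂ} (hc1 : Hc c) {Y : ℝ} (hY : 1 ≤ Y) {w : ℕ → ℝ} (hw : ∀ p : ℕ, 0 ≤ w p) :
    ∑ p ∈ (Finset.Icc 1 ⌊Y⌋₊).filter (fun p : ℕ => p.Prime ∧ 0 < (p : ℝ)),
      ‖c p‖ * Real.log p * Real.sqrt (w p / p) ≤
    (Real.log Y + 6 + ∑ p ∈ (Finset.Icc 1 ⌊Y⌋₊).filter Nat.Prime, w p * Real.log p) / 2 := by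
  have hN : 1 ≤ ⌊Y⌋₊ := by rwa [Nat.one_le_floor_iff]
  have hset : (Finset.Icc 1 ⌊Y⌋₊).filter (fun p : ℕ => p.Prime ∧ 0 < (p : ℝ)) =
      (Finset.Icc 1 ⌊Y⌋₊).filter Nat.Prime := by
    refine Finset.filter_congr fun p _ => ?_
    constructor
    · exact fun h => h.1
    · exact fun h => ⟨h, by exact_mod_cast h.pos⟩
  rw [hset]
  have h1 : ∀ p ∈ (Finset.Icc 1 ⌊Y⌋₊).filter Nat.Prime, ‖c p‖ * Real.log p * Real.sqrt (w p / p) ≤
      (‖c p‖ ^ 2 * Real.log p / p + w p * Real.log p) / 2 := by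
    intro p hp
    have hpp := (Finset.mem_filter.mp hp).2
    have hp0 : (0 : ℝ) < p := by exact_mod_cast hpp.pos
    have hl : 0 ≤ Real.log p := Real.log_natCast_nonneg p
    have e1 : Real.sqrt (w p / p) = Real.sqrt (w p) * (Real.sqrt p)⁻¹ := by
      rw [Real.sqrt_div (hw p), div_eq_mul_inv]
    have e2 : ‖c p‖ ^ 2 * Real.log p / p = (‖c p‖ * (Real.sqrt p)⁻¹) ^ 2 * Real.log p := by
      rw [mul_pow, inv_pow, Real.sq_sqrt hp0.le]
      ring
    have e3 : w p * Real.log p = Real.sqrt (w p) ^ 2 * Real.log p := by rw [Real.sq_sqrt (hw p)]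
    rw [e1, e2, e3]
    have h2 := mul_nonneg (sq_nonneg (‖c p‖ * (Real.sqrt p)⁻¹ - Real.sqrt (w p))) hl
    nlinarith
  refine (Finset.sum_le_sum h1).trans ?_
  rw [← Finset.sum_div, Finset.sum_add_distrib]
  have h2 := hc1 ⌊Y⌋₊ hN
  have h3 : Real.log ⌊Y⌋₊ ≤ Real.log Y :=
    Real.log_le_log (by exact_mod_cast hN) (Nat.floor_le (by linarith))
  linarith

/-- The small primes. -/
lemma SS_small (c : ℕ → ℂ) (hc1 : Hc c) (Y : ℝ) (s : ℂ) (hY : 1 ≤ Y) (hs : 1 / 2 ≤ s.re) :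
    ‖SS c 0 Y s‖ ≤ Y * Real.log Y + 3 := by
  unfold SS
  refine (norm_sum_le _ _).trans ?_
  have h1 : ∀ p ∈ (Finset.Icc 1 ⌊Y⌋₊).filter (fun p : ℕ => p.Prime ∧ 0 < (p : ℝ)),
      ‖c p * (Real.log p : ℂ) * (p : ℂ) ^ (-s)‖ ≤ ‖c p‖ * Real.log p * Real.sqrt (1 / p) := by
    intro p hp
    simp only [Finset.mem_filter, Finset.mem_Icc] at hp
    have hp1 : (1 : ℝ) ≤ p := by exact_mod_cast hp.1.1
    rw [norm_mul, norm_mul, Complex.norm_natCast_cpow_of_pos (by omega), Complex.norm_real, Real.norm_eq_abs,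
      abs_of_nonneg (Real.log_nonneg hp1)]
    have h2 : (p : ℝ) ^ (-s).re ≤ Real.sqrt (1 / p) := by
      rw [Real.sqrt_eq_rpow, one_div, ← Real.rpow_neg_one, ← Real.rpow_mul (by linarith)]
      refine Real.rpow_le_rpow_of_exponent_le hp1 ?_
      rw [Complex.neg_re]
      linarith
    have hl := Real.log_nonneg hp1
    exact mul_le_mul_of_nonneg_left h2 (by positivity)
  refine (Finset.sum_le_sum h1).trans ?_
  refine (sum_am hc1 hY (w := fun _ => 1) (fun _ => zero_le_one)).trans ?_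
  have h4 : ∑ p ∈ (Finset.Icc 1 ⌊Y⌋₊).filter Nat.Prime, 1 * Real.log p ≤ Y * Real.log Y := by
    have h5 : ∀ p ∈ (Finset.Icc 1 ⌊Y⌋₊).filter Nat.Prime, 1 * Real.log (p : ℝ) ≤ Real.log Y := by
      intro p hp
      simp only [Finset.mem_filter, Finset.mem_Icc] at hp
      have hp1 : (1 : ℝ) ≤ p := by exact_mod_cast hp.1.1
      have hpY : (p : ℝ) ≤ Y := (Nat.le_floor_iff (by linarith)).mp hp.1.2
      rw [one_mul]
      exact Real.log_le_log (by linarith) hpY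
    refine (Finset.sum_le_card_nsmul _ _ _ h5).trans ?_
    rw [nsmul_eq_mul]
    refine mul_le_mul_of_nonneg_right ?_ (Real.log_nonneg hY)
    have h2 := Finset.card_filter_le (Finset.Icc 1 ⌊Y⌋₊) Nat.Prime
    have h3 : (Finset.Icc 1 ⌊Y⌋₊).card = ⌊Y⌋₊ := by simp
    rw [h3] at h2
    calc (((Finset.Icc 1 ⌊Y⌋₊).filter Nat.Prime).card : ℝ) ≤ (⌊Y⌋₊ : ℝ) := by
          exact_mod_cast h2
      _ ≤ Y := Nat.floor_le (by linarith)
  have h5 : Real.log Y ≤ Y * Real.log Y := le_mul_of_one_le_left (Real.log_nonneg hY) hY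
  linarith

/-- On `Re s ≥ 1`. -/
lemma SS_far (c : ℕ → ℂ) (hc1 : Hc c) (Y : ℝ) (s : ℂ) (hY : 1 ≤ Y) (hs : 1 ≤ s.re) :
    ‖SS c 0 Y s‖ ≤ Real.log Y + 6 := by
  unfold SS
  refine (norm_sum_le _ _).trans ?_
  have hN : 1 ≤ ⌊Y⌋₊ := by rwa [Nat.one_le_floor_iff]
  have h1 : ∀ p ∈ (Finset.Icc 1 ⌊Y⌋₊).filter (fun p : ℕ => p.Prime ∧ 0 < (p : ℝ)),
      ‖c p * (Real.log p : ℂ) * (p : ℂ) ^ (-s)‖ ≤ ‖c p‖ * Real.log p * Real.sqrt (1 / p / p) := by
    intro p hp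
    simp only [Finset.mem_filter, Finset.mem_Icc] at hp
    have hp1 : (1 : ℝ) ≤ p := by exact_mod_cast hp.1.1
    have hp0 : (0 : ℝ) < p := by linarith
    rw [norm_mul, norm_mul, Complex.norm_natCast_cpow_of_pos (by omega), Complex.norm_real, Real.norm_eq_abs,
      abs_of_nonneg (Real.log_nonneg hp1)]
    have h2 : (p : ℝ) ^ (-s).re ≤ Real.sqrt (1 / p / p) := by
      have e : (1 : ℝ) / p / p = ((p : ℝ)⁻¹) ^ 2 := by field_simp
      rw [e, Real.sqrt_sq (by positivity), ← Real.rpow_neg_one]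
      exact Real.rpow_le_rpow_of_exponent_le hp1 (by simpa using hs)
    have hl := Real.log_nonneg hp1
    exact mul_le_mul_of_nonneg_left h2 (by positivity)
  refine (Finset.sum_le_sum h1).trans ?_
  refine (sum_am hc1 hY (w := fun p => 1 / (p : ℝ)) (fun _ => by positivity)).trans ?_
  have h2 := H370.nt_mertens_upper ⌊Y⌋₊ hN
  have h3 : Real.log ⌊Y⌋₊ ≤ Real.log Y :=
    Real.log_le_log (by exact_mod_cast hN) (Nat.floor_le (by linarith))
  have h4 : ∑ p ∈ (Finset.Icc 1 ⌊Y⌋₊).filter Nat.Prime, 1 / (p : ℝ) * Real.log p ≤ Real.log Y + 6 := by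
    refine le_trans ?_ (h2.trans (by linarith))
    have h5 : ∀ p ∈ (Finset.Icc 1 ⌊Y⌋₊).filter Nat.Prime, 1 / (p : ℝ) * Real.log p =
        ArithmeticFunction.vonMangoldt p / p := by
      intro p hp
      rw [ArithmeticFunction.vonMangoldt_apply_prime (Finset.mem_filter.1 hp).2]
      ring
    rw [Finset.sum_congr rfl h5]
    refine Finset.sum_le_sum_of_subset_of_nonneg (Finset.filter_subset _ _) ?_
    intro d _ _
    exact div_nonneg ArithmeticFunction.vonMangoldt_nonneg (Nat.cast_nonneg _)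
  linarith

theorem smpa (a0 η ε : ℝ) (ha0 : 0 < a0) (ha : 8 * a0 ≤ ε) (hε : ε ≤ 1) (hη : 16 * a0 ≤ η) :
    ∃ C T0 : ℝ, 0 < C ∧ 2 ≤ T0 ∧ ∀ (c : ℕ → ℂ), Hc c →
    ∀ T x W : ℝ, T0 ≤ T → 1 / Real.log T ≤ x → x ≤ W → W ≤ T / 8 →
    volume {t : ℝ | T / 2 ≤ t ∧ t ≤ 3 * T ∧ ∃ z : ℂ, x ≤ z.re ∧ |z.im - t| ≤ W ∧
      η * Real.log T < ‖SS c 0 (T ^ a0) (1 / 2 + z)‖} ≤
    ENNReal.ofReal (C * T * (W / x) * Real.exp (-(2 * (1 - ε) * x * Real.log T))) := by
  have hε0 : 0 < ε := by linarith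
  have hη0 : 0 < η := by linarith
  obtain ⟨C, hC, hsc⟩ := scale_large a0 η ε ha0 ha hε hη0
  -- large `log T`
  have hlim1 : ∀ᶠ L : ℝ in atTop, 12 ≤ Real.log L := Real.tendsto_log_atTop.eventually_ge_atTop 12
  have hlim2 : ∀ᶠ L : ℝ in atTop, L ^ (1 / 2 : ℝ) * Real.log (L ^ (1 / 2 : ℝ)) ≤ η / 8 * L := by
    have h1 : (fun L : ℝ => Real.log L) =o[atTop] fun L : ℝ => L ^ (1 / 2 : ℝ) :=
      isLittleO_log_rpow_atTop (by norm_num)
    have h2 := h1.bound (show (0 : ℝ) < η / 8 by positivity)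
    filter_upwards [h2, eventually_ge_atTop 1] with L hL hL1
    have hl0 : 0 ≤ Real.log L := Real.log_nonneg hL1
    rw [Real.norm_eq_abs, Real.norm_eq_abs, abs_of_nonneg hl0, abs_of_nonneg (by positivity)] at hL
    rw [Real.log_rpow (by linarith)]
    have h3 : L ^ (1 / 2 : ℝ) * L ^ (1 / 2 : ℝ) = L := by
      rw [← Real.rpow_add (by linarith)]
      norm_num
    calc L ^ (1 / 2 : ℝ) * (1 / 2 * Real.log L) ≤ L ^ (1 / 2 : ℝ) * (η / 8 * L ^ (1 / 2 : ℝ)) := by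
          refine mul_le_mul_of_nonneg_left ?_ (by positivity)
          linarith
      _ = η / 8 * (L ^ (1 / 2 : ℝ) * L ^ (1 / 2 : ℝ)) := by ring
      _ = _ := by rw [h3]
  have hlim3 : ∀ᶠ L : ℝ in atTop, 6 ≤ η / 8 * L := by
    have := (tendsto_id (α := ℝ) (x := atTop)).const_mul_atTop (show (0 : ℝ) < η / 8 by positivity)
    exact this.eventually_ge_atTop 6
  obtain ⟨L0, hL0⟩ := eventually_atTop.mp ((hlim1.and hlim2).and hlim3)
  refine ⟨2 * C, max 8 (Real.exp L0), by positivity, le_trans (by norm_num) (le_max_left _ _), ?_⟩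
  intro c hc1 T x W hT hx hxW hWT
  have hT8 : 8 ≤ T := (le_max_left _ _).trans hT
  have hTe : Real.exp L0 ≤ T := (le_max_right _ _).trans hT
  have hT0 : 0 < T := by linarith
  have hLL0 : L0 ≤ Real.log T := (Real.le_log_iff_exp_le hT0).mpr hTe
  have hL : 0 < Real.log T := Real.log_pos (by linarith)
  obtain ⟨⟨hl1, hl2⟩, hl3⟩ := hL0 (Real.log T) hLL0
  set L := Real.log T with hLdef
  set q : ℝ := 1 - ε / 32 with hq
  have hq0 : 0 < q := by rw [hq]; linarith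
  have hq1 : q < 1 := by rw [hq]; linarith
  -- the number of blocks
  have hex : ∃ I : ℕ, a0 * q ^ (4 * I) * L < 1 / 2 * Real.log L := by
    obtain ⟨n, hn⟩ := exists_pow_lt_of_lt_one (show 0 < 1 / 2 * Real.log L / (a0 * L) by positivity) hq1
    refine ⟨n, ?_⟩
    have h1 : q ^ (4 * n) ≤ q ^ n := pow_le_pow_of_le_one hq0.le hq1.le (by omega)
    have h2 : q ^ (4 * n) < 1 / 2 * Real.log L / (a0 * L) := lt_of_le_of_lt h1 hn
    rw [lt_div_iff₀ (by positivity)] at h2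
    linarith
  classical
  set I := Nat.find hex with hI
  have hI1 : a0 * q ^ (4 * I) * L < 1 / 2 * Real.log L := Nat.find_spec hex
  have hI2 : ∀ i < I, 6 ≤ a0 * q ^ (4 * i) * L := by
    intro i hi
    have := Nat.find_min hex hi
    push Not at this
    linarith
  have hall := all_scales ε hε0 hε C hC T x W hT8 hx hxW hWT
    (fun z => ‖SS c (T ^ (a0 * q ^ (4 * I))) (T ^ a0) (1 / 2 + z)‖) (η / 2 * L)
    (fun x' W' hx' hxW' hWT' => hsc c hc1 T x' W' I hT8 hI2 hx' hxW' hWT')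
  refine (measure_mono ?_).trans hall
  rintro t ⟨ht1, ht2, z, hz1, hz2, hz3⟩
  have hx0 : 0 < x := lt_of_lt_of_le (by positivity) hx
  have hzre : 0 < z.re := lt_of_lt_of_le hx0 hz1
  have hre' : (1 / 2 + z).re = 1 / 2 + z.re := by
    rw [Complex.add_re]
    have : (1 / 2 : ℂ).re = 1 / 2 := by norm_num
    rw [this]
  have hz12 : z.re < 1 / 2 := by
    by_contra hcon
    have h1 := SS_far c hc1 (T ^ a0) (1 / 2 + z) (Real.one_le_rpow (by linarith) ha0.le)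
      (by rw [hre']; linarith [not_lt.mp hcon])
    rw [Real.log_rpow hT0] at h1
    have h2 : 16 * a0 * L ≤ η * L := mul_le_mul_of_nonneg_right hη hL.le
    have h3 : 0 < a0 * L := by positivity
    have h4 : 0 < η * L := by positivity
    linarith
  refine ⟨ht1, ht2, z, hz1, hz12, hz2, ?_⟩
  -- the primes up to `T ^ a0`
  set Y : ℝ := T ^ (a0 * q ^ (4 * I)) with hY
  have hY1 : 1 ≤ Y := Real.one_le_rpow (by linarith) (by positivity)
  have hYL : Y ≤ L ^ (1 / 2 : ℝ) := by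
    rw [hY, Real.rpow_def_of_pos hT0, Real.rpow_def_of_pos hL]
    refine Real.exp_le_exp.mpr ?_
    have : Real.log T * (a0 * q ^ (4 * I)) = a0 * q ^ (4 * I) * L := by rw [hLdef]; ring
    rw [this]
    linarith
  have hadd : SS c 0 (T ^ a0) (1 / 2 + z) = SS c 0 Y (1 / 2 + z) + SS c Y (T ^ a0) (1 / 2 + z) := by
    refine SS_add c 0 Y (T ^ a0) le_rfl (by linarith) ?_ _
    refine Real.rpow_le_rpow_of_exponent_le (by linarith) ?_
    exact mul_le_of_le_one_right ha0.le (pow_le_one₀ hq0.le hq1.le)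
  have hsm : ‖SS c 0 Y (1 / 2 + z)‖ ≤ η / 8 * L + 3 := by
    have hre : 1 / 2 ≤ (1 / 2 + z).re := by
      rw [hre']
      linarith
    refine (SS_small c hc1 Y _ hY1 hre).trans (add_le_add (le_trans ?_ hl2) le_rfl)
    refine mul_le_mul hYL (Real.log_le_log (by linarith) hYL) (Real.log_nonneg hY1) (by positivity)
  have htri2 : ‖SS c 0 (T ^ a0) (1 / 2 + z)‖ ≤ ‖SS c 0 Y (1 / 2 + z)‖ + ‖SS c Y (T ^ a0) (1 / 2 + z)‖ := by
    rw [hadd]
    exact norm_add_le _ _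
  have h4 : 0 < η * L := by positivity
  linarith

end Pool.Agent.Zk3.GA
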