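import Pool.Agent.Zk3.GA.One

set_option autoImplicit false

/-!
# No scattered zero at a good height
-/

namespace Pool.Agent.Zk3.GA

open Complex Filter Topology Set Metric
open ArithmeticFunction (vonMangoldt)
open Pool.Agent.Zk3.GL (gl Sx Px Tx cpow_norm tail_le wd FewF Sp wc wc_mono cone_in)

theorem nogood {ε : ℝ} (hε : 0 < ε) (hε1 : ε ≤ 1) : ∃ B cf C0 : ℝ, 1 ≤ B ∧ 0 < cf ∧ 1 ≤ C0 ∧
    ∀ (D A K : ℝ), 0 ≤ D → 1 ≤ A → ∃ V0 : ℝ, 3 ≤ V0 ∧ ∀ (Q : ℝ) (F : ℂ → ℂ) (a : ℕ → ℂ), 1 ≤ Q →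
    IsB D A Q F a → ∀ (L V δ t : ℝ) (s : ℂ), V0 ≤ V → 1 ≤ L → L ≤ V → C0 * Real.log V ≤ δ * L → 0 < δ →
    δ ≤ 1 / 2 → (∀ y : ℝ, |y - t| ≤ B / δ → 3 ≤ y ∧ Real.log (Q * y) ≤ V) →
    (∀ z : ℂ, (1 - ε / 8) * δ ≤ z.re → |z.im - t| ≤ B / δ →
      ‖Sp a (Real.exp (ε / 64 * L)) (1 / 2 + z)‖ ≤ 7 * D * V ^ 2) →
    F s = 0 → 1 / 2 + δ ≤ s.re → |s.im - t| ≤ δ / 100 →
    (∀ r : ℝ, δ ≤ r → r ≤ 1 / 2 → FewF F ε B δ r s.im (K + cf * (r * L))) → False := by
  classical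
  obtain ⟨κ, hκe⟩ : ∃ κ : ℝ, κ = ε / 8 := ⟨_, rfl⟩
  have hκ : 0 < κ := by linarith
  have hκ8 : κ ≤ 1 / 8 := by linarith
  obtain ⟨a0, ha0e⟩ : ∃ a0 : ℝ, a0 = ε / 64 := ⟨_, rfl⟩
  have ha0 : 0 < a0 := by linarith
  have ha01 : a0 ≤ 1 := by linarith
  obtain ⟨cl, bl, nl, hcl, hbl, hnl, hstep⟩ := step hκ hκ8 ha0 ha01
  obtain ⟨C2, hC2e⟩ : ∃ C2 : ℝ, C2 = 1 := ⟨_, rfl⟩
  have hC2 : 0 < C2 := by rw [hC2e]; norm_num
  obtain ⟨B1, hB1e⟩ : ∃ B1 : ℝ, B1 = 16 / ε ^ 2 := ⟨_, rfl⟩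
  have hB1 : 0 < B1 := by rw [hB1e]; positivity
  obtain ⟨B0, hB0e⟩ : ∃ B0 : ℝ, 8 * (B1 + 81) / κ = B0 := ⟨_, rfl⟩
  have hB00 : 0 < B0 := by rw [← hB0e]; positivity
  have hB0B : 64 * (B1 + 81) ≤ B0 := by
    rw [← hB0e, le_div_iff₀ hκ]
    have := mul_le_mul_of_nonneg_left hκ8 (show 0 ≤ 64 * (B1 + 81) by positivity)
    linarith
  refine ⟨B0 + 80, cl / 4, 48 / a0 + 6 / bl + 1, by linarith, by linarith, by
    have : 0 < 48 / a0 := by positivity
    have : 0 < 6 / bl := by positivity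
    linarith, ?_⟩
  intro D A K hD hA
  have hA0 : 0 < A := by linarith
  obtain ⟨K1, hK1⟩ : ∃ K1 : ℝ, K1 = 16 * (16000 * A / κ + D * C2 + 16 * D + 2 * D) := ⟨_, rfl⟩
  obtain ⟨K2, hK2⟩ : ∃ K2 : ℝ, K2 = 3 * A + 4 * D + 2 * (16 * D) := ⟨_, rfl⟩
  have hK10 : 0 < K1 := by rw [hK1]; positivity
  have hK20 : 0 < K2 := by rw [hK2]; positivity
  have hKe := Real.exp_pos (2 * nl + 4 * |K| / cl + 1)
  refine ⟨K1 + K2 + 3 + Real.exp (2 * nl + 4 * |K| / cl + 1), by linarith, ?_⟩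
  intro Q F a hQ hF L V δ t s hV hL hLV hδL hδ hδ2 hhe hgood hs0 hsre hst hfew
  obtain ⟨c, hcn, hc⟩ := log_rep hF hD hA
  -- sizes
  have hV1 : 1 ≤ V := by linarith
  have hV0 : 0 < V := by linarith
  have hVK1 : K1 ≤ V := by linarith
  have hVK2 : K2 ≤ V := by linarith
  have hlogV : 2 * nl + 4 * |K| / cl + 1 ≤ Real.log V := by
    rw [Real.le_log_iff_exp_le hV0]
    linarith
  have hK4 : 0 ≤ 4 * |K| / cl := by positivity
  have hlV1 : 1 ≤ Real.log V := by linarith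
  have hVlog : V = Real.exp (Real.log V) := (Real.exp_log hV0).symm
  have hδ1 : 1 / V ≤ δ := by
    have h1 : Real.log V ≤ δ * L := by
      refine le_trans ?_ hδL
      have : 0 < 48 / a0 := by positivity
      have : 0 < 6 / bl := by positivity
      exact le_mul_of_one_le_left (by linarith) (by linarith)
    rw [div_le_iff₀ hV0]
    have : δ * L ≤ δ * V := mul_le_mul_of_nonneg_left hLV hδ.le
    linarith
  -- the height of `s`
  obtain ⟨γ, hγ⟩ : ∃ γ : ℝ, γ = s.im := ⟨_, rfl⟩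
  have hδ' : 2 ≤ 1 / δ := by rw [le_div_iff₀ hδ]; linarith
  have hBδ : (B0 + 80) / δ = B0 * (1 / δ) + 80 * (1 / δ) := by ring
  rw [← hγ] at hst hfew
  obtain ⟨Wm, hWm⟩ : ∃ Wm : ℝ, Wm = wc B0 δ ε (1 / 2) := ⟨_, rfl⟩
  have hWmle : Wm ≤ B0 * (1 / δ) / 4 := by
    rw [hWm]
    unfold wc
    have h1 : (1 / 2 / δ : ℝ) ^ ε ≤ 1 / 2 / δ := by
      calc (1 / 2 / δ : ℝ) ^ ε ≤ (1 / 2 / δ) ^ (1 : ℝ) :=
            Real.rpow_le_rpow_of_exponent_le (by rw [le_div_iff₀ hδ]; linarith) hε1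
        _ = _ := Real.rpow_one _
    calc B0 * (1 / 2) * (1 / 2 / δ) ^ ε ≤ B0 * (1 / 2) * (1 / 2 / δ) := mul_le_mul_of_nonneg_left h1 (by positivity)
      _ = _ := by ring
  have hWm0 : 0 ≤ Wm := by rw [hWm]; unfold wc; positivity
  -- the finite set of zeros
  set Ω : Set ℂ := Icc (1 / 2) 2 ×ℂ Icc (γ - Wm) (γ + Wm) with hΩ
  have hΩm : ∀ w : ℂ, w ∈ Ω ↔ 1 / 2 ≤ w.re ∧ w.re ≤ 2 ∧ |w.im - γ| ≤ Wm := by
    intro w
    rw [hΩ, mem_reProdIm, mem_Icc, mem_Icc, abs_le]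
    constructor
    · rintro ⟨⟨h1, h2⟩, h3, h4⟩
      exact ⟨h1, h2, by linarith, by linarith⟩
    · rintro ⟨h1, h2, h3, h4⟩
      exact ⟨⟨h1, h2⟩, by linarith, by linarith⟩
  have hhi : ∀ y : ℝ, |y - γ| ≤ Wm → 3 ≤ y ∧ Real.log (Q * y) ≤ V := by
    intro y hy
    refine hhe y ?_
    rw [hBδ]
    have h1 : |y - t| ≤ |y - γ| + |γ - t| := by
      have := abs_add_le (y - γ) (γ - t)
      rwa [sub_add_sub_cancel] at this
    have h2 : 0 ≤ B0 * (1 / δ) := by positivity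
    linarith
  have hΩc : IsCompact Ω := isCompact_Icc.reProdIm isCompact_Icc
  have hΩp : IsPreconnected Ω := by
    have h1 := (convex_Icc (1 / 2 : ℝ) 2).linear_preimage Complex.reLm
    have h2 := (convex_Icc (γ - Wm) (γ + Wm)).linear_preimage Complex.imLm
    exact (h1.inter h2).isPreconnected
  have hΩa : AnalyticOnNhd ℂ F Ω := fun w hw => by
    have h1 := (hhi w.im ((hΩm w).1 hw).2.2).1
    exact hF.an w (by linarith)
  have hγ3 : 3 ≤ γ := (hhi γ (by rw [sub_self, abs_zero]; exact hWm0)).1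
  have hpt : (⟨2, γ⟩ : ℂ) ∈ Ω := by
    rw [hΩm]
    simp only [sub_self, abs_zero]
    exact ⟨by norm_num, le_rfl, hWm0⟩
  have hfin := Pool.Agent.Zk3.CL.zeros_finite hΩc hΩp hΩa hpt
    (hF.nz _ (by norm_num) (by show (1 : ℝ) ≤ γ; linarith))
  obtain ⟨zs, hzs⟩ : ∃ zs : Finset ℂ, zs = hfin.toFinset.filter
    (fun z => 1 / 2 + δ ≤ z.re ∧ |z.im - γ| ≤ wc B0 δ ε (z.re - 1 / 2)) := ⟨_, rfl⟩
  have hzm : ∀ z : ℂ, z ∈ zs ↔ (z ∈ Ω ∧ F z = 0) ∧ 1 / 2 + δ ≤ z.re ∧ |z.im - γ| ≤ wc B0 δ ε (z.re - 1 / 2) := by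
    intro z
    rw [hzs, Finset.mem_filter, Set.Finite.mem_toFinset]
    rfl
  have hre1 : ∀ w : ℂ, F w = 0 → 1 ≤ w.im → w.re ≤ 1 := by
    intro w h0 h1
    by_contra h
    exact hF.nz w (not_le.mp h) h1 h0
  have hsmem : s ∈ zs := by
    rw [hzm, hΩm, ← hγ, sub_self, abs_zero]
    have h1 := hre1 s hs0 (by rw [← hγ]; linarith)
    refine ⟨⟨⟨by linarith, by linarith, hWm0⟩, hs0⟩, hsre, ?_⟩
    unfold wc
    have : 0 < s.re - 1 / 2 := by linarith
    positivity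
  obtain ⟨ρ, hρ, hmax⟩ := Finset.exists_max_image zs (fun z => z.re) ⟨s, hsmem⟩
  obtain ⟨⟨hρΩ, hρ0⟩, hρre, hργ⟩ := (hzm ρ).1 hρ
  obtain ⟨r, hr⟩ : ∃ r : ℝ, r = ρ.re - 1 / 2 := ⟨_, rfl⟩
  rw [← hr] at hργ
  have hρWm := ((hΩm ρ).1 hρΩ).2.2
  have hρ3 := (hhi ρ.im hρWm).1
  have hrδ : δ ≤ r := by linarith
  have hr1 : r ≤ 1 / 2 := by
    have := hre1 ρ hρ0 (by linarith)
    linarith
  have hr0 : 0 < r := by linarith
  have hκr : 0 < κ * r := by positivity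
  have hκr2 : κ * r ≤ 1 / 16 := by
    have := mul_le_mul hκ8 hr1 hr0.le (by norm_num : (0 : ℝ) ≤ 1 / 8)
    linarith
  have hext : ∀ w : ℂ, F w = 0 → 1 ≤ w.im → r < w.re - 1 / 2 → |w.im - γ| ≤ wc B0 δ ε (w.re - 1 / 2) → False := by
    intro w h0 h1 h2 h3
    have h4 := hre1 w h0 h1
    have h5 : wc B0 δ ε (w.re - 1 / 2) ≤ Wm := by
      rw [hWm]
      exact wc_mono hB00.le hδ hε.le (by linarith) (by linarith)
    have h6 : w ∈ zs := (hzm w).2 ⟨⟨(hΩm w).2 ⟨by linarith, by linarith, h3.trans h5⟩, h0⟩, by linarith, h3⟩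
    have h7 := hmax w h6
    linarith
  -- sizes at the scale `r`
  have hrL1 : (48 / a0 + 6 / bl + 1) * Real.log V ≤ r * L :=
    hδL.trans (mul_le_mul_of_nonneg_right hrδ (by linarith))
  have h48 : 0 < 48 / a0 := by positivity
  have h4b : 0 < 6 / bl := by positivity
  have hrLV : Real.log V ≤ r * L := by
    refine le_trans ?_ hrL1
    exact le_mul_of_one_le_left (by linarith) (by linarith)
  have hrLa : 48 * Real.log V ≤ a0 * (r * L) := by
    have h1 : 48 / a0 * Real.log V ≤ r * L := by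
      refine le_trans ?_ hrL1
      exact mul_le_mul_of_nonneg_right (by linarith) (by linarith)
    rw [div_mul_eq_mul_div, div_le_iff₀ ha0] at h1
    linarith
  have hrLb : 6 * Real.log V ≤ bl * (r * L) := by
    have h1 : 6 / bl * Real.log V ≤ r * L := by
      refine le_trans ?_ hrL1
      exact mul_le_mul_of_nonneg_right (by linarith) (by linarith)
    rw [div_mul_eq_mul_div, div_le_iff₀ hbl] at h1
    linarith
  obtain ⟨S, hS⟩ : ∃ S : ℝ, S = 16 * D * V ^ 2 := ⟨_, rfl⟩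
  have hS0 : 0 ≤ S := by rw [hS]; positivity
  have hSb : ∀ (x y : ℝ), (1 - ε / 8) * δ ≤ x → |y - t| ≤ (B0 + 80) / δ →
      ‖Sx a (Real.exp (a0 * L)) (1 / 2 + (x : ℂ) + y * I)‖ ≤ S := by
    intro x y hx hy
    have hx0 : 0 ≤ x := by
      refine le_trans ?_ hx
      exact mul_nonneg (by linarith) hδ.le
    have h1 := Sx_le hD hF.coef (a0 * L) (1 / 2 + (x : ℂ) + y * I) (by positivity)
      (by rw [pt_re, Complex.ofReal_re]; linarith)
    have h2 := hgood ((x : ℂ) + y * I) (by simpa using hx) (by simpa using hy)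
    rw [← add_assoc, ← ha0e] at h2
    have h3 : D * (2 + a0 * L) ^ 2 ≤ D * (3 * V) ^ 2 := by
      refine mul_le_mul_of_nonneg_left ?_ hD
      have : a0 * L ≤ 1 * L := mul_le_mul_of_nonneg_right ha01 (by linarith)
      have h4 : 0 ≤ a0 * L := mul_nonneg ha0.le (by linarith)
      exact pow_le_pow_left₀ (by linarith) (by linarith) 2
    rw [hS]
    linarith
  have hBδ2 : ∀ y : ℝ, |y - ρ.im| ≤ 80 * r + 9 * B1 * (1 / δ) → |y - t| ≤ (B0 + 80) / δ := by
    intro y hy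
    have h1 : |y - t| ≤ |y - ρ.im| + |ρ.im - γ| + |γ - t| := by
      have e1 := abs_add_le (y - ρ.im) (ρ.im - γ)
      have e2 := abs_add_le (y - ρ.im + (ρ.im - γ)) (γ - t)
      have e3 : y - ρ.im + (ρ.im - γ) + (γ - t) = y - t := by ring
      rw [e3] at e2
      linarith
    rw [hBδ]
    have h2 : 9 * B1 * (1 / δ) ≤ B0 * (1 / δ) / 4 := by
      have : 9 * B1 ≤ B0 / 4 := by linarith
      have := mul_le_mul_of_nonneg_right this (show 0 ≤ 1 / δ by positivity)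
      linarith
    have h3 : 0 ≤ B0 * (1 / δ) := by positivity
    linarith
  obtain ⟨M, hM⟩ : ∃ M : ℝ, M = 16000 * A * V / (((1 + 2 * κ) * r) ^ 4 * (κ * r)) + D * C2 + S + 2 * D := ⟨_, rfl⟩
  have hMK : 16 * M ≤ K1 * V ^ 6 := by
    have hV6 : V ≤ V ^ 6 := le_self_pow₀ hV1 (by norm_num)
    have hV61 : 1 ≤ V ^ 6 := one_le_pow₀ hV1
    have h1 : κ / V ^ 5 ≤ ((1 + 2 * κ) * r) ^ 4 * (κ * r) := by
      have e1 : (1 / V) ≤ (1 + 2 * κ) * r := by
        have : 0 ≤ κ * r := hκr.le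
        linarith
      have e2 : (1 / V) ^ 4 ≤ ((1 + 2 * κ) * r) ^ 4 := pow_le_pow_left₀ (by positivity) e1 4
      have e3 : κ * (1 / V) ≤ κ * r := mul_le_mul_of_nonneg_left (by linarith) hκ.le
      calc κ / V ^ 5 = (1 / V) ^ 4 * (κ * (1 / V)) := by field_simp
        _ ≤ _ := mul_le_mul e2 e3 (by positivity) (by positivity)
    have h2 : 16000 * A * V / (((1 + 2 * κ) * r) ^ 4 * (κ * r)) ≤ 16000 * A / κ * V ^ 6 := by
      calc 16000 * A * V / (((1 + 2 * κ) * r) ^ 4 * (κ * r)) ≤ 16000 * A * V / (κ / V ^ 5) :=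
            div_le_div_of_nonneg_left (by positivity) (by positivity) h1
        _ = _ := by field_simp
    have h3 : D * C2 ≤ D * C2 * V ^ 6 := le_mul_of_one_le_right (by positivity) hV61
    have hV26 : V ^ 2 ≤ V ^ 6 := pow_le_pow_right₀ hV1 (by norm_num)
    have h4 : S ≤ 16 * D * V ^ 6 := by
      rw [hS]; exact mul_le_mul_of_nonneg_left hV26 (by positivity)
    have h5 : 2 * D ≤ 2 * D * V ^ 6 := le_mul_of_one_le_right (by positivity) hV61
    rw [hM, hK1]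
    linarith
  have hM1 : 16 * M ≤ Real.exp (7 * a0 * (r * L) / 48) := by
    have h1 : K1 * V ^ 6 ≤ V ^ 7 := by
      calc K1 * V ^ 6 ≤ V * V ^ 6 := mul_le_mul_of_nonneg_right hVK1 (by positivity)
        _ = _ := by ring
    have h2 : V ^ 7 ≤ Real.exp (7 * a0 * (r * L) / 48) := by
      nth_rewrite 1 [hVlog]
      rw [← Real.exp_nat_mul]
      refine Real.exp_le_exp.mpr ?_
      push_cast
      linarith
    linarith
  have hB' : 2 * A + A * V + 4 * D + 2 * S ≤ Real.exp (bl * (r * L / 2)) := by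
    have h1 : 2 * A + A * V + 4 * D + 2 * S ≤ K2 * V ^ 2 := by
      have hV2 : V ≤ V ^ 2 := le_self_pow₀ hV1 (by norm_num)
      have e1 : A * 1 ≤ A * V ^ 2 := mul_le_mul_of_nonneg_left (by linarith) hA0.le
      have e2 : D * 1 ≤ D * V ^ 2 := mul_le_mul_of_nonneg_left (by linarith) hD
      have e3 : A * V ≤ A * V ^ 2 := mul_le_mul_of_nonneg_left hV2 hA0.le
      rw [hK2, hS]
      linarith
    have h2 : K2 * V ^ 2 ≤ V ^ 3 := by
      calc K2 * V ^ 2 ≤ V * V ^ 2 := mul_le_mul_of_nonneg_right hVK2 (by positivity)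
        _ = _ := by ring
    have h3 : V ^ 3 ≤ Real.exp (bl * (r * L / 2)) := by
      nth_rewrite 1 [hVlog]
      rw [← Real.exp_nat_mul]
      refine Real.exp_le_exp.mpr ?_
      push_cast
      linarith
    linarith
  obtain ⟨Z, hZ1, hZ2⟩ := hstep D A Q F a hF hD hA hQ C2 hC2 (fun s hs => by rw [hC2e]; exact ld_far hF.coef hs) c hcn hc (ε / 2) B1 r L S V
    ρ.im M (by linarith) (by linarith) (by
      rw [hB1e]
      refine le_of_eq ?_
      field_simp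
      norm_num) hr0 hr1 (by linarith) hS0 hV1 hM hM1 hB' (by
      intro y0 hy0
      have hy0t : |y0 - t| ≤ (B0 + 80) / δ := hBδ2 y0 (by
        have : 0 ≤ 9 * B1 * (1 / δ) := by positivity
        linarith)
      obtain ⟨g1, g2⟩ := hhe y0 hy0t
      have hx0δ : 0 < (1 + 2 * κ) * r := by positivity
      have hwd : ∀ x : ℝ, (1 + 2 * κ) * r ≤ x → x ≤ 3 → wd B1 (ε / 2) ((1 + 2 * κ) * r) x ≤ 9 * B1 * (1 / δ) := by
        intro x hx hx3
        have hxp : 0 < x := by linarith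
        have e1 : (x / ((1 + 2 * κ) * r)) ^ (2 * (ε / 2)) ≤ 3 * (1 / δ) := by
          have e2 : 1 ≤ x / ((1 + 2 * κ) * r) := by rw [one_le_div hx0δ]; exact hx
          calc (x / ((1 + 2 * κ) * r)) ^ (2 * (ε / 2)) ≤ (x / ((1 + 2 * κ) * r)) ^ (1 : ℝ) :=
                Real.rpow_le_rpow_of_exponent_le e2 (by linarith)
            _ = x / ((1 + 2 * κ) * r) := Real.rpow_one _
            _ ≤ 3 / δ := by
                refine div_le_div₀ (by norm_num) hx3 hδ ?_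
                linarith
            _ = _ := by ring
        unfold wd
        calc B1 * x * (x / ((1 + 2 * κ) * r)) ^ (2 * (ε / 2)) ≤ B1 * 3 * (3 * (1 / δ)) :=
              mul_le_mul (mul_le_mul_of_nonneg_left hx3 hB1.le) e1 (by positivity) (by positivity)
          _ = _ := by ring
      refine ⟨g1, g2, ?_, ?_⟩
      · intro u hu1 hu2
        refine hSb u y0 (le_trans ?_ hu1) hy0t
        rw [← hκe]
        exact mul_le_mul_of_nonneg_left hrδ (by linarith)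
      have hzt : ∀ z : ℂ, (1 + 2 * κ) * r ≤ z.re → z.re ≤ 3 → |z.im| ≤ wd B1 (ε / 2) ((1 + 2 * κ) * r) z.re →
          |z.im + y0 - t| ≤ (B0 + 80) / δ := by
        intro z h1 h2 h3
        refine hBδ2 _ ?_
        have e1 := abs_add_le z.im (y0 - ρ.im)
        have e2 : z.im + (y0 - ρ.im) = z.im + y0 - ρ.im := by ring
        rw [e2] at e1
        have e3 := hwd z.re h1 h2
        linarith
      constructor
      · intro z h1 h2 h3 w hw hw0
        by_contra hlt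
        rw [not_le, pt_eq] at hlt
        have hwre := (Complex.abs_re_le_norm _).trans_lt hlt
        have hwim := (Complex.abs_im_le_norm _).trans_lt hlt
        rw [Complex.sub_re, abs_lt] at hwre
        rw [Complex.sub_im] at hwim
        simp only at hwre hwim
        have hzi := (hhe _ (hzt z h1 h2 h3)).1
        have hwim' := abs_lt.mp hwim
        have hcone := cone_in (B := B0) (B1 := B1) (x := z.re) (xw := w.re - 1 / 2) hδ hε hε1 hκ hκ8 hB1.le hB0e hrδ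
          h1 (by linarith)
        refine hext w hw0 (by linarith) (by linarith) (le_trans ?_ hcone)
        have e1 : w.im - γ = (w.im - (z.im + y0)) + z.im + (y0 - ρ.im) + (ρ.im - γ) := by ring
        rw [e1]
        have e2 := abs_add_le ((w.im - (z.im + y0)) + z.im + (y0 - ρ.im)) (ρ.im - γ)
        have e3 := abs_add_le ((w.im - (z.im + y0)) + z.im) (y0 - ρ.im)
        have e4 := abs_add_le (w.im - (z.im + y0)) z.im
        have e5 : |w.im - (z.im + y0)| < κ * r := by rw [abs_sub_comm]; exact hwim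
        have e6 : wd B1 (ε / 2) ((1 + 2 * κ) * r) z.re = B1 * z.re * (z.re / ((1 + 2 * κ) * r)) ^ ε := by
          unfold wd
          rw [show 2 * (ε / 2) = ε by ring]
        rw [e6] at h3
        linarith
      · intro z h1 h2 h3
        have e1 : (1 / 2 + z + y0 * I) = 1 / 2 + ((z.re : ℝ) : ℂ) + ((z.im + y0 : ℝ) : ℂ) * I := by
          apply Complex.ext <;> simp
        rw [e1]
        refine hSb z.re (z.im + y0) ?_ (hzt z h1 h2 h3)
        refine le_trans ?_ h1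
        rw [← hκe]
        exact mul_le_mul (by linarith) hrδ hδ.le (by linarith)
      · intro z h1 h2 h3
        exact hhe _ (hzt z h1 h2 h3)) (by
      have e1 : (1 / 2 + (r : ℂ) + ρ.im * I) = ρ := by
        apply Complex.ext
        · rw [pt_re, Complex.ofReal_re, hr]; ring
        · rw [pt_im, Complex.ofReal_im, zero_add]
      rw [e1]
      exact hρ0)
  -- the contradiction
  have hZim : ∀ z ∈ Z, 3 ≤ z.im := by
    intro z hz
    obtain ⟨-, -, h3⟩ := hZ2 z hz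
    refine (hhe z.im (hBδ2 z.im ?_)).1
    have : 0 ≤ 9 * B1 * (1 / δ) := by positivity
    linarith
  have h1 := card_le hF (Z := Z) (fun z hz => ⟨(hZ2 z hz).1, by linarith [hZim z hz]⟩)
  have h2 := hfew r hrδ hr1 Z (fun z hz => by
    obtain ⟨g1, g2, g3⟩ := hZ2 z hz
    refine ⟨g1, by linarith [hZim z hz], ?_, ?_⟩
    · refine le_trans ?_ g2
      have : (1 - ε) * r ≤ (1 - κ) * r := mul_le_mul_of_nonneg_right (by linarith) hr0.le
      linarith
    · have e1 := abs_add_le (z.im - ρ.im) (ρ.im - γ)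
      rw [sub_add_sub_cancel] at e1
      have e2 : 1 ≤ (r / δ) ^ ε := Real.one_le_rpow (by rw [one_le_div hδ]; exact hrδ) hε.le
      have e3 : 80 * r ≤ 80 * r * (r / δ) ^ ε := le_mul_of_one_le_right (by positivity) e2
      have e4 : wc B0 δ ε r = B0 * r * (r / δ) ^ ε := rfl
      rw [e4] at hργ
      linarith)
  have h3 : cl * (r * L / 2) ≤ K + cl / 4 * (r * L) := hZ1.trans (h1.trans h2)
  have h4 : 4 * |K| / cl < r * L := by linarith
  rw [div_lt_iff₀ hcl] at h4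
  have h5 := le_abs_self K
  linarith

end Pool.Agent.Zk3.GA
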