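import Pool.Agent.Zk3.GA.Step
import Pool.Agent.Zk3.GL.One

set_option autoImplicit false

/-!
# No scattered zero at a good height
-/

namespace Pool.Agent.Zk3.GA

open Complex Filter Topology Set Metric
open ArithmeticFunction (vonMangoldt)
open Pool.Agent.Zk3.GL (gl Sx Px Tx cpow_norm tail_le wd FewF Sp wc wc_mono cone_in)

variable {D A Q : ℝ} {F : ℂ → ℂ} {a : ℕ → ℂ}

theorem Sx_le {D : ℝ} {a : ℕ → ℂ} (hD : 0 ≤ D) (h : Cb D a) (Y : ℝ) (s : ℂ) (hY : 0 ≤ Y) (hs : 1 / 2 ≤ s.re) :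
    ‖Sx a (Real.exp Y) s‖ ≤ ‖Sp a (Real.exp Y) s‖ + D * (2 + Y) ^ 2 := by
  have hX1 : 1 ≤ Real.exp Y := Real.one_le_exp hY
  have hfl : 1 ≤ ⌊Real.exp Y⌋₊ := by rwa [Nat.one_le_floor_iff]
  have hsplit : Sx a (Real.exp Y) s = Sp a (Real.exp Y) s +
      ∑ n ∈ (Finset.Ioc 0 ⌊Real.exp Y⌋₊).filter (fun n : ℕ => ¬ n.Prime), a n * (n : ℂ) ^ (-s) := by
    unfold Sx Sp
    rw [Finset.sum_filter_add_sum_filter_not]
  rw [hsplit]
  refine (norm_add_le _ _).trans (add_le_add le_rfl ?_)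
  refine (norm_sum_le _ _).trans ?_
  have h1 : ∀ n ∈ (Finset.Ioc 0 ⌊Real.exp Y⌋₊).filter (fun n : ℕ => ¬ n.Prime), ‖a n * (n : ℂ) ^ (-s)‖ ≤
      ‖a n‖ / Real.sqrt n := by
    intro n hn
    rw [Finset.mem_filter, Finset.mem_Ioc] at hn
    rw [norm_mul, cpow_norm hn.1.1, Real.sqrt_eq_rpow, div_eq_mul_inv, ← Real.rpow_neg (Nat.cast_nonneg n)]
    refine mul_le_mul_of_nonneg_left ?_ (norm_nonneg _)
    exact Real.rpow_le_rpow_of_exponent_le (by exact_mod_cast hn.1.1) (by linarith)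
  refine (Finset.sum_le_sum h1).trans ((h.powers _ hfl).trans ?_)
  have h4 : Real.log (⌊Real.exp Y⌋₊ : ℝ) ≤ Y := by
    rw [Real.log_le_iff_le_exp (by exact_mod_cast hfl)]
    exact Nat.floor_le (by linarith)
  have h5 : 0 ≤ Real.log (⌊Real.exp Y⌋₊ : ℝ) := Real.log_nonneg (by exact_mod_cast hfl)
  refine mul_le_mul_of_nonneg_left ?_ hD
  exact pow_le_pow_left₀ (by linarith) (by linarith) 2

/-- multiplicities of zeros to the right of `1/2` are at least one -/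
lemma card_le (hF : IsB D A Q F a) {Z : Finset ℂ} (hZ : ∀ z ∈ Z, F z = 0 ∧ 1 ≤ z.im) :
    (Z.card : ℝ) ≤ ∑ z ∈ Z, (analyticOrderNatAt F z : ℝ) := by
  calc (Z.card : ℝ) = ∑ _z ∈ Z, (1 : ℝ) := by simp
    _ ≤ _ := Finset.sum_le_sum fun z hz => by
      obtain ⟨h0, h1⟩ := hZ z hz
      have hU : IsPreconnected {s : ℂ | 0 < s.im} := by
        have h2 := (convex_Ioi (0 : ℝ)).linear_preimage Complex.imLm
        exact h2.isPreconnected
      have hne : F ⟨2, 1⟩ ≠ 0 := hF.nz _ (by norm_num) (by norm_num)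
      have h3 := (H370.Loc.mult_pos hU (fun s hs => hF.an s hs) (c := ⟨2, 1⟩) (z := z)
        (by simp) hne (by show 0 < z.im; linarith)).mpr h0
      have h4 : 1 ≤ analyticOrderNatAt F z := h3
      exact_mod_cast h4

end Pool.Agent.Zk3.GA
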