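import Pool.Agent.Zk3.GA.Ray
import Pool.Agent.Zk3.GL.Loc

set_option autoImplicit false

/-!
# One zero at the edge of a cone without zeros
-/

namespace Pool.Agent.Zk3.GA

open Complex Filter Topology Set Metric
open ArithmeticFunction (vonMangoldt)
open Pool.Agent.Zk3.GL (gl Sx Px Tx cpow_norm tail_le wd local_thm)

variable {D A Q : ℝ} {F : ℂ → ℂ} {a : ℕ → ℂ}

/-- growth of the quotient -/
lemma Gq_growth (hF : IsB D A Q F a) (hD : 0 ≤ D) (hA : 1 ≤ A) (hQ : 1 ≤ Q) {c : ℂ}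
    (hcl : A⁻¹ * Real.exp (-(2 * D)) ≤ ‖c‖)
    (hc : ∀ s : ℂ, 1 < s.re → 1 < s.im → F s = c * Complex.exp (Tx a s)) {X S V x y : ℝ} (hS : 0 ≤ S)
    (hV : 0 ≤ V) (hx : 0 < x) (hy : 3 ≤ y) (hQy : Real.log (Q * y) ≤ V)
    (hSx : ∀ u : ℝ, x ≤ u → u ≤ 3 / 2 → ‖Sx a X (1 / 2 + (u : ℂ) + y * I)‖ ≤ S) :
    ‖Gq F a X c (1 / 2 + (x : ℂ) + y * I)‖ ≤ Real.exp (2 * A + A * V + 4 * D + 2 * S) := by
  have hA0 : 0 < A := by linarith
  have hre : ∀ u : ℝ, (1 / 2 + (u : ℂ) + y * I).re = 1 / 2 + u := fun u => by rw [pt_re, Complex.ofReal_re]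
  have him : ∀ u : ℝ, (1 / 2 + (u : ℂ) + y * I).im = y := fun u => by
    rw [pt_im, Complex.ofReal_im, zero_add]
  have hc0 : 0 < ‖c‖ := lt_of_lt_of_le (by positivity) hcl
  have hAV : 0 ≤ A * V := by positivity
  rcases le_or_gt x (3 / 2) with h1 | h1
  · -- the polynomial
    have hP : ‖Px a X (1 / 2 + (x : ℂ) + y * I)‖ ≤ 2 * D + 2 * S := by
      have h2 := (Tx_le hF.coef (s := 1 / 2 + ((3 / 2 : ℝ) : ℂ) + y * I) (by rw [hre]; norm_num)).2 X
      have hd : ∀ u ∈ Icc x (3 / 2), HasDerivAt (fun u : ℝ => Px a X (1 / 2 + (u : ℂ) + y * I))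
          (-(Sx a X (1 / 2 + (u : ℂ) + y * I))) u := by
        intro u _
        have h5 := Px_deriv hF.coef X (1 / 2 + (u : ℂ) + y * I)
        have h6 : HasDerivAt (fun v : ℝ => (1 / 2 + (v : ℂ) + y * I)) 1 u := by
          have := ((Complex.ofRealCLM.hasDerivAt (x := u)).const_add (1 / 2 : ℂ)).add_const (y * I)
          simpa using this
        have h7 := HasDerivAt.comp_of_eq u h5 h6 rfl
        simpa [Function.comp_def] using h7
      have h8 := (convex_Icc x (3 / 2)).norm_image_sub_le_of_norm_hasDerivWithin_le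
        (f := fun u : ℝ => Px a X (1 / 2 + (u : ℂ) + y * I)) (C := S)
        (x := 3 / 2) (y := x) (fun v hv => (hd v hv).hasDerivWithinAt)
        (fun v hv => by rw [norm_neg]; exact hSx v hv.1 hv.2) ⟨h1, le_rfl⟩ ⟨le_rfl, h1⟩
      rw [Real.norm_eq_abs, abs_of_nonpos (by linarith)] at h8
      have h9 : S * -(x - 3 / 2) ≤ S * 2 := mul_le_mul_of_nonneg_left (by linarith) hS
      have h10 : ‖Px a X (1 / 2 + (x : ℂ) + y * I)‖ ≤
          ‖Px a X (1 / 2 + (x : ℂ) + y * I) - Px a X (1 / 2 + ((3 / 2 : ℝ) : ℂ) + y * I)‖ +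
          ‖Px a X (1 / 2 + ((3 / 2 : ℝ) : ℂ) + y * I)‖ := by
        calc ‖Px a X (1 / 2 + (x : ℂ) + y * I)‖ = ‖(Px a X (1 / 2 + (x : ℂ) + y * I) -
              Px a X (1 / 2 + ((3 / 2 : ℝ) : ℂ) + y * I)) + Px a X (1 / 2 + ((3 / 2 : ℝ) : ℂ) + y * I)‖ := by
              rw [sub_add_cancel]
          _ ≤ _ := norm_add_le _ _
      linarith
    have hFb : ‖F (1 / 2 + (x : ℂ) + y * I)‖ ≤ Real.exp (A + A * V) := by
      have h2 := hF.growth (1 / 2 + (x : ℂ) + y * I) (by rw [hre]; linarith) (by rw [hre]; linarith)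
        (by rw [him]; linarith)
      rw [him] at h2
      refine h2.trans ?_
      have hQy0 : 0 < Q * y := by positivity
      rw [Real.exp_add]
      refine mul_le_mul ?_ ?_ (by positivity) (Real.exp_pos _).le
      · have := Real.add_one_le_exp A
        linarith
      · rw [Real.rpow_def_of_pos hQy0, mul_comm]
        exact Real.exp_le_exp.mpr (mul_le_mul_of_nonneg_left hQy hA0.le)
    unfold Gq
    rw [norm_div, norm_mul, Complex.norm_exp, Complex.neg_re, div_le_iff₀ hc0]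
    have h3 : Real.exp (-(Px a X (1 / 2 + (x : ℂ) + y * I)).re) ≤ Real.exp (2 * D + 2 * S) := by
      refine Real.exp_le_exp.mpr ?_
      have := Complex.abs_re_le_norm (Px a X (1 / 2 + (x : ℂ) + y * I))
      rw [abs_le] at this
      linarith [this.1]
    have h4 : Real.exp (A + A * V) * Real.exp (2 * D + 2 * S) ≤
        Real.exp (2 * A + A * V + 4 * D + 2 * S) * (A⁻¹ * Real.exp (-(2 * D))) := by
      have e1 : Real.exp (2 * A + A * V + 4 * D + 2 * S) * (A⁻¹ * Real.exp (-(2 * D))) =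
          Real.exp (2 * A + A * V + 2 * D + 2 * S) / A := by
        rw [div_eq_mul_inv, ← mul_assoc, mul_comm _ (A⁻¹), mul_assoc, ← Real.exp_add, mul_comm]
        congr 2
        ring
      rw [e1, ← Real.exp_add, le_div_iff₀ hA0]
      have h5 : A ≤ Real.exp A := by
        have := Real.add_one_le_exp A
        linarith
      calc Real.exp (A + A * V + (2 * D + 2 * S)) * A ≤ Real.exp (A + A * V + (2 * D + 2 * S)) * Real.exp A :=
            mul_le_mul_of_nonneg_left h5 (Real.exp_pos _).le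
        _ = _ := by
            rw [← Real.exp_add]
            congr 1
            ring
    calc ‖F (1 / 2 + (x : ℂ) + y * I)‖ * Real.exp (-(Px a X (1 / 2 + (x : ℂ) + y * I)).re)
        ≤ Real.exp (A + A * V) * Real.exp (2 * D + 2 * S) :=
          mul_le_mul hFb h3 (Real.exp_pos _).le (Real.exp_pos _).le
      _ ≤ _ := h4
      _ ≤ _ := mul_le_mul_of_nonneg_left hcl (Real.exp_pos _).le
  · have h2 := Tx_le hF.coef (s := 1 / 2 + (x : ℂ) + y * I) (by rw [hre]; linarith)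
    have h3 := h2.2 X
    unfold Gq
    rw [hc _ (by rw [hre]; linarith) (by rw [him]; linarith)]
    have e1 : c * Complex.exp (Tx a (1 / 2 + (x : ℂ) + y * I)) * Complex.exp (-(Px a X (1 / 2 + (x : ℂ) + y * I))) / c
        = Complex.exp (Tx a (1 / 2 + (x : ℂ) + y * I) - Px a X (1 / 2 + (x : ℂ) + y * I)) := by
      have : c ≠ 0 := norm_pos_iff.mp hc0
      rw [sub_eq_add_neg, Complex.exp_add]
      field_simp
    rw [e1, Complex.norm_exp]
    refine Real.exp_le_exp.mpr ?_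
    have h4 := Complex.abs_re_le_norm (Tx a (1 / 2 + (x : ℂ) + y * I) - Px a X (1 / 2 + (x : ℂ) + y * I))
    have h5 := norm_sub_le (Tx a (1 / 2 + (x : ℂ) + y * I)) (Px a X (1 / 2 + (x : ℂ) + y * I))
    have h6 := le_abs_self (Tx a (1 / 2 + (x : ℂ) + y * I) - Px a X (1 / 2 + (x : ℂ) + y * I)).re
    linarith [h2.1]

theorem step {κ a0 : ℝ} (hκ : 0 < κ) (hκ8 : κ ≤ 1 / 8) (ha0 : 0 < a0) (ha01 : a0 ≤ 1) :
    ∃ cl bl nl : ℝ, 0 < cl ∧ 0 < bl ∧ 1 ≤ nl ∧
    ∀ (D A Q : ℝ) (F : ℂ → ℂ) (a : ℕ → ℂ), IsB D A Q F a → 0 ≤ D → 1 ≤ A → 1 ≤ Q →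
    ∀ (C2 : ℝ), 0 < C2 → (∀ s : ℂ, 2 ≤ s.re → ‖∑' n : ℕ, a n * (n : ℂ) ^ (-s)‖ ≤ D * C2) →
    ∀ c : ℂ, A⁻¹ * Real.exp (-(2 * D)) ≤ ‖c‖ → (∀ s : ℂ, 1 < s.re → 1 < s.im → F s = c * Complex.exp (Tx a s)) →
    ∀ η A1 r L S V γ M : ℝ, 0 < η → η ≤ 1 / 2 → 4 / η ^ 2 ≤ A1 → 0 < r → r ≤ 1 / 2 → nl ≤ r * L / 2 →
    0 ≤ S → 1 ≤ V →
    M = 16000 * A * V / (((1 + 2 * κ) * r) ^ 4 * (κ * r)) + D * C2 + S + 2 * D →
    16 * M ≤ Real.exp (7 * a0 * (r * L) / 48) →
    2 * A + A * V + 4 * D + 2 * S ≤ Real.exp (bl * (r * L / 2)) →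
    (∀ y0 : ℝ, |y0 - γ| ≤ 80 * r → 3 ≤ y0 ∧ Real.log (Q * y0) ≤ V ∧
      (∀ u : ℝ, (1 - κ) * r ≤ u → u ≤ 3 / 2 → ‖Sx a (Real.exp (a0 * L)) (1 / 2 + (u : ℂ) + y0 * I)‖ ≤ S) ∧
      Ry F a Q η A1 ((1 + 2 * κ) * r) y0 (κ * r) (Real.exp (a0 * L)) S V) →
    F (1 / 2 + (r : ℂ) + γ * I) = 0 →
    ∃ Z : Finset ℂ, cl * (r * L / 2) ≤ Z.card ∧ ∀ z ∈ Z, F z = 0 ∧ 1 / 2 + (1 - κ) * r ≤ z.re ∧
      |z.im - γ| ≤ 80 * r := by
  classical
  obtain ⟨cl, bl, nl, hcl, hbl, hnl, hloc⟩ := local_thm (κ := κ) (ρ := 16) (a := a0 / 24) hκ (by linarith)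
    (by norm_num) (by linarith) (by linarith)
  refine ⟨cl, bl, nl, hcl, hbl, hnl, ?_⟩
  intro D A Q F a hF hD hA hQ C2 hC2 hC2' c hcn hc η A1 r L S V γ M hη hη1 hA1 hr hr1 hn hS hV hM hM1 hB hy hz0
  have hA0 : 0 < A := by linarith
  have hrL : 0 < r * L := by linarith
  have hL : 0 < L := by
    by_contra h
    have := mul_nonpos_of_nonneg_of_nonpos hr.le (not_lt.mp h)
    linarith
  have hc0 : c ≠ 0 := norm_pos_iff.mp (lt_of_lt_of_le (by positivity) hcn)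
  have hrC : (r : ℂ) ≠ 0 := by exact_mod_cast hr.ne'
  obtain ⟨l, hl⟩ : ∃ l : ℝ, l = a0 * L / 6 := ⟨_, rfl⟩
  have hl0 : 0 < l := by rw [hl]; positivity
  have h6l : a0 * L = 6 * l := by rw [hl]; ring
  rw [h6l] at hy
  have hM0 : 0 ≤ 16000 * A * V / (((1 + 2 * κ) * r) ^ 4 * (κ * r)) := by positivity
  have hDC : 0 ≤ D * C2 := by positivity
  have hMD : 2 * D ≤ M := by rw [hM]; linarith
  have hMp : 0 ≤ M := by linarith
  set G : ℂ → ℂ := fun w => Gq F a (Real.exp (6 * l)) c (1 / 2 + (r * w.re : ℝ) + ((γ + r * w.im : ℝ) : ℂ) * I) with hG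
  have hGe : ∀ w : ℂ, (1 / 2 + ((r * w.re : ℝ) : ℂ) + ((γ + r * w.im : ℝ) : ℂ) * I) = 1 / 2 + γ * I + r * w := by
    intro w
    apply Complex.ext
    · simp
    · simp
  have hyw : ∀ w : ℂ, |w.im| ≤ 5 * 16 → |γ + r * w.im - γ| ≤ 80 * r := by
    intro w hw
    rw [add_sub_cancel_left, abs_mul, abs_of_pos hr]
    calc r * |w.im| ≤ r * (5 * 16) := mul_le_mul_of_nonneg_left hw hr.le
      _ = _ := by ring
  have hcond : ∀ w : ℂ, 7 ≤ w.re → 16 * M * Real.exp (-(l * (r * w.re / 2 - (1 + 2 * κ) * r))) ≤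
      Real.exp (-(a0 / 24 * (r * L / 2) * w.re)) := by
    intro w hw
    calc 16 * M * Real.exp (-(l * (r * w.re / 2 - (1 + 2 * κ) * r)))
        ≤ Real.exp (7 * a0 * (r * L) / 48) * Real.exp (-(l * (r * w.re / 2 - (1 + 2 * κ) * r))) :=
          mul_le_mul_of_nonneg_right hM1 (Real.exp_pos _).le
      _ = Real.exp (7 * a0 * (r * L) / 48 + -(l * (r * w.re / 2 - (1 + 2 * κ) * r))) := by rw [Real.exp_add]
      _ ≤ _ := by
          refine Real.exp_le_exp.mpr ?_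
          have e1 : 7 * a0 * (r * L) / 48 + -(l * (r * w.re / 2 - (1 + 2 * κ) * r)) =
              a0 * (r * L) * (7 / 48 - (w.re / 2 - (1 + 2 * κ)) / 6) := by rw [hl]; ring
          have e2 : -(a0 / 24 * (r * L / 2) * w.re) = a0 * (r * L) * (-(w.re / 48)) := by ring
          rw [e1, e2]
          refine mul_le_mul_of_nonneg_left ?_ (by positivity)
          linarith
  have hsm : ∀ w : ℂ, 7 ≤ w.re → M * Real.exp (-(l * (r * w.re / 2 - (1 + 2 * κ) * r))) ≤ 1 / 16 := by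
    intro w hw
    have h1 := hcond w hw
    have h2 : Real.exp (-(a0 / 24 * (r * L / 2) * w.re)) ≤ 1 := by
      rw [Real.exp_le_one_iff]
      have : 0 ≤ a0 / 24 * (r * L / 2) * w.re := by
        have : 0 < w.re := by linarith
        positivity
      linarith
    linarith
  have hsm2 : 2 * D * Real.exp (-(l * 3)) ≤ 1 / 2 := by
    have h1 := hsm (7 : ℂ) (by simp)
    have h2 : ((7 : ℂ)).re = 7 := by simp
    rw [h2] at h1
    have h3 : Real.exp (-(l * 3)) ≤ Real.exp (-(l * (r * 7 / 2 - (1 + 2 * κ) * r))) := by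
      refine Real.exp_le_exp.mpr (neg_le_neg (mul_le_mul_of_nonneg_left ?_ hl0.le))
      have : 0 ≤ κ * r := by positivity
      linarith
    have h4 : 2 * D * Real.exp (-(l * 3)) ≤ M * Real.exp (-(l * (r * 7 / 2 - (1 + 2 * κ) * r))) :=
      mul_le_mul hMD h3 (Real.exp_pos _).le hMp
    linarith
  have hH := hloc (r * L / 2) (2 * A + A * V + 4 * D + 2 * S) G 1 hn (by
      have : 0 ≤ A * V := by positivity
      linarith) hB ?_ ?_ ?_ (by rw [Complex.one_re]) (by rw [Complex.one_re]; norm_num) (by simp)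
  · obtain ⟨Z, hZ1, hZ2⟩ := hH
    refine ⟨Z.image (fun w => 1 / 2 + γ * I + r * w), ?_, ?_⟩
    · rw [Finset.card_image_of_injective _ (fun u v huv => by
        have h1 : 1 / 2 + γ * I + r * u = 1 / 2 + γ * I + r * v := huv
        exact mul_left_cancel₀ hrC (by linear_combination h1))]
      exact hZ1
    · intro z hz
      obtain ⟨w, hw, rfl⟩ := Finset.mem_image.mp hz
      obtain ⟨h1, h2, h3, h4⟩ := hZ2 w hw
      refine ⟨?_, ?_, ?_⟩
      · have h5 : Gq F a (Real.exp (6 * l)) c (1 / 2 + (r * w.re : ℝ) + ((γ + r * w.im : ℝ) : ℂ) * I) = 0 := h1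
        rw [hGe w] at h5
        unfold Gq at h5
        rcases div_eq_zero_iff.mp h5 with h6 | h6
        · rcases mul_eq_zero.mp h6 with h7 | h7
          · exact h7
          · exact absurd h7 (Complex.exp_ne_zero _)
        · exact absurd h6 hc0
      · have e1 : (1 / 2 + γ * I + r * w : ℂ).re = 1 / 2 + r * w.re := by simp
        rw [e1]
        have := mul_le_mul_of_nonneg_left h2 hr.le
        linarith
      · have e1 : (1 / 2 + γ * I + r * w : ℂ).im = γ + r * w.im := by simp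
        rw [e1]
        exact hyw w h4
  · intro w h1 h2 h3
    obtain ⟨g1, g2, g3, -⟩ := hy _ (hyw w h3)
    have hw0 : 0 < w.re := by linarith
    constructor
    · have hfun : G = fun w => Gq F a (Real.exp (6 * l)) c (1 / 2 + γ * I + r * w) := by
        funext v
        show Gq F a (Real.exp (6 * l)) c (1 / 2 + (r * v.re : ℝ) + ((γ + r * v.im : ℝ) : ℂ) * I) = _
        rw [hGe v]
      rw [hfun]
      have him : 0 < (1 / 2 + γ * I + r * w : ℂ).im := by
        have e1 : (1 / 2 + γ * I + r * w : ℂ).im = γ + r * w.im := by simp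
        rw [e1]
        linarith
      have h4 := Gq_ana hF (X := Real.exp (6 * l)) (c := c) him
      exact AnalyticAt.fun_comp h4 (by fun_prop)
    · exact Gq_growth hF hD hA hQ hcn hc hS (by linarith) (mul_pos hr hw0) g1 g2 (fun u hu1 hu2 =>
        g3 u (le_trans (by rw [mul_comm]; exact mul_le_mul_of_nonneg_left h1 hr.le) hu1) hu2)
  · intro w h1 h2 h3
    obtain ⟨g1, g2, g3, g4⟩ := hy _ (hyw w h3)
    have h1' : 7 ≤ w.re := by linarith
    have hg := gap hF hD hA hQ hC2 hC2' hc0 hc hη hη1 hA1 (x0 := (1 + 2 * κ) * r) (by positivity)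
      (by
        have : κ * r ≤ 1 / 8 * (1 / 2) := mul_le_mul hκ8 hr1 hr.le (by norm_num)
        linarith) (d := κ * r) (by positivity) (by
        have : κ * r ≤ 1 / 8 * (1 / 2) := mul_le_mul hκ8 hr1 hr.le (by norm_num)
        linarith) hl0.le hS hV g4 hM (r * w.re) (by
        have h5 : (1 + 2 * κ) ≤ w.re := by linarith
        rw [mul_comm]
        exact mul_le_mul_of_nonneg_left h5 hr.le) ((hsm w h1').trans (by norm_num)) hsm2
    exact hg.trans (hcond w h1')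
  · show Gq F a (Real.exp (6 * l)) c (1 / 2 + ((r * (1 : ℂ).re : ℝ) : ℂ) + ((γ + r * (1 : ℂ).im : ℝ) : ℂ) * I) = 0
    have e1 : (1 / 2 + ((r * (1 : ℂ).re : ℝ) : ℂ) + ((γ + r * (1 : ℂ).im : ℝ) : ℂ) * I) =
        1 / 2 + (r : ℂ) + γ * I := by simp
    rw [e1]
    unfold Gq
    rw [hz0, zero_mul, zero_div]

end Pool.Agent.Zk3.GA
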