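import Pool.Agent.Zk3.GA.Nog
import Pool.Agent.Zk3.GA.MP

set_option autoImplicit false

/-!
# The twisted coefficients
-/

namespace Pool.Agent.Zk3.GA

open Complex Filter Topology Set Metric MeasureTheory
open Pool.Agent.Zk3.GL (gl Sp SS)

/-- the twisted coefficients, up to `X` -/
noncomputable def tc (a : ℕ → ℂ) (D w X τ : ℝ) (p : ℕ) : ℂ :=
  if (p : ℝ) ≤ X then gl a p / ((D * w : ℝ) : ℂ) * (p : ℂ) ^ (-((τ : ℂ) * I)) else 0

lemma tc_norm (a : ℕ → ℂ) {D w : ℝ} (hDw : 0 < D * w) (X τ : ℝ) {p : ℕ} (hp : 0 < p) :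
    ‖tc a D w X τ p‖ = if (p : ℝ) ≤ X then ‖gl a p‖ / (D * w) else 0 := by
  unfold tc
  split_ifs
  · rw [norm_mul, Complex.norm_natCast_cpow_of_pos hp, norm_div, Complex.norm_real, Real.norm_eq_abs,
      abs_of_pos hDw]
    have e1 : (-((τ : ℂ) * I)).re = 0 := by simp
    rw [e1, Real.rpow_zero, mul_one]
  · simp

lemma tc_Hc {a : ℕ → ℂ} {D w X : ℝ} (hD : 1 ≤ D) (hX : 1 ≤ X) (hw : 0 < w) (hw2 : w ^ 2 = Real.log X + 6)
    (h : Cb D a) (τ : ℝ) : Hc (tc a D w X τ) := by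
  intro N hN
  have hDw : 0 < D * w := by positivity
  -- the sum stops at `X`
  obtain ⟨N', hN'⟩ : ∃ N' : ℕ, N' = min N ⌊X⌋₊ := ⟨_, rfl⟩
  have hfl : 1 ≤ ⌊X⌋₊ := by rwa [Nat.one_le_floor_iff]
  have hN'1 : 1 ≤ N' := by rw [hN']; exact le_min hN hfl
  have hN'N : N' ≤ N := by rw [hN']; exact min_le_left _ _
  have hN'X : (N' : ℝ) ≤ X := by
    have h1 : N' ≤ ⌊X⌋₊ := by rw [hN']; exact min_le_right _ _
    exact le_trans (by exact_mod_cast h1) (Nat.floor_le (by linarith))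
  have e1 : ∑ p ∈ (Finset.Icc 1 N).filter Nat.Prime, ‖tc a D w X τ p‖ ^ 2 * Real.log p / p =
      ∑ p ∈ (Finset.Icc 1 N').filter Nat.Prime, ‖tc a D w X τ p‖ ^ 2 * Real.log p / p := by
    symm
    refine Finset.sum_subset ?_ fun p hp hp' => ?_
    · intro p hp
      simp only [Finset.mem_filter, Finset.mem_Icc] at hp ⊢
      exact ⟨⟨hp.1.1, by omega⟩, hp.2⟩
    · simp only [Finset.mem_filter, Finset.mem_Icc] at hp hp'
      have h1 : N' < p := by
        by_contra hcon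
        exact hp' ⟨⟨hp.1.1, by omega⟩, hp.2⟩
      have h2 : ⌊X⌋₊ < p := by
        rw [hN'] at h1
        rcases min_lt_iff.mp h1 with h3 | h3
        · omega
        · exact h3
      have h3 : ¬ (p : ℝ) ≤ X := by
        rw [not_le]
        exact (Nat.floor_lt (by linarith)).mp h2
      rw [tc_norm a hDw X τ (by omega), if_neg h3]
      simp
  rw [e1]
  have h4 := h.primes N' hN'1
  have h5 : ∑ p ∈ (Finset.Icc 1 N').filter Nat.Prime, ‖tc a D w X τ p‖ ^ 2 * Real.log p / p ≤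
      ((D * w) ^ 2)⁻¹ * ∑ p ∈ (Finset.Icc 1 N').filter Nat.Prime, ‖gl a p‖ ^ 2 * Real.log p / p := by
    rw [Finset.mul_sum]
    refine Finset.sum_le_sum fun p hp => ?_
    simp only [Finset.mem_filter, Finset.mem_Icc] at hp
    have h6 : (p : ℝ) ≤ X := le_trans (by exact_mod_cast hp.1.2) hN'X
    rw [tc_norm a hDw X τ (by omega), if_pos h6, div_pow]
    refine le_of_eq ?_
    ring
  refine h5.trans ?_
  have hl0 : 0 ≤ Real.log N' := Real.log_nonneg (by exact_mod_cast hN'1)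
  have hl1 : Real.log N' ≤ Real.log N := Real.log_le_log (by exact_mod_cast hN'1) (by exact_mod_cast hN'N)
  have hl2 : Real.log N' ≤ Real.log X := Real.log_le_log (by exact_mod_cast hN'1) hN'X
  calc ((D * w) ^ 2)⁻¹ * ∑ p ∈ (Finset.Icc 1 N').filter Nat.Prime, ‖gl a p‖ ^ 2 * Real.log p / p
      ≤ ((D * w) ^ 2)⁻¹ * (D ^ 2 * (Real.log N' + 6) ^ 2) := mul_le_mul_of_nonneg_left h4 (by positivity)
    _ = (Real.log N' + 6) * ((Real.log N' + 6) / (Real.log X + 6)) := by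
        rw [mul_pow, hw2]
        have : 0 < Real.log X + 6 := by linarith
        field_simp
    _ ≤ (Real.log N' + 6) * 1 := by
        refine mul_le_mul_of_nonneg_left ?_ (by linarith)
        rw [div_le_one (by linarith)]
        linarith
    _ ≤ _ := by linarith

lemma Sp_eq {a : ℕ → ℂ} {D w : ℝ} (hDw : 0 < D * w) (h : Cb D a) (τ X : ℝ) (s : ℂ) :
    Sp a X (s + τ * I) = ((D * w : ℝ) : ℂ) * SS (tc a D w X τ) 0 X s := by
  have hDC : ((D * w : ℝ) : ℂ) ≠ 0 := by exact_mod_cast hDw.ne'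
  unfold Sp SS
  rw [Finset.mul_sum]
  refine Finset.sum_congr ?_ fun p hp => ?_
  · ext p
    simp only [Finset.mem_filter, Finset.mem_Ioc, Finset.mem_Icc]
    constructor
    · rintro ⟨⟨h1, h2⟩, h3⟩
      exact ⟨⟨h1, h2⟩, h3, by exact_mod_cast h1⟩
    · rintro ⟨⟨h1, h2⟩, h3, -⟩
      exact ⟨⟨h1, h2⟩, h3⟩
  · simp only [Finset.mem_filter, Finset.mem_Icc] at hp
    have hp0 : (p : ℂ) ≠ 0 := by
      have : p ≠ 0 := by omega
      exact_mod_cast this
    have hpX : (p : ℝ) ≤ X := by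
      rcases lt_or_ge X 0 with hX | hX
      · rw [Nat.floor_of_nonpos hX.le] at hp
        omega
      · exact (Nat.le_floor_iff hX).mp hp.1.2
    unfold tc
    rw [if_pos hpX, ← gl_log h p, neg_add, Complex.cpow_add _ _ hp0]
    field_simp

end Pool.Agent.Zk3.GA
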